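import Pool.Agent.H36.LBQ.CovA

/-!
# Interpolation (P5)

From the three-point vectors of the slopes `cc` of the moving slow coordinates with respect to the
time, and of the corrected slopes `aT` with respect to the square of the time from a reference
time, to polynomials of degree two in the time modulo the body.
-/

set_option autoImplicit false

namespace Pool.LBL

open Finset Real Matrix
open Pool.Agent.H49.Ent Pool.Agent.H32.Dense Pool.STK Pool.SLO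
open Pool.BFL (Pb)
open Pool.QT64 (d3)

variable {c k0 k1 : ℕ} {Ω Λ : Type}

/-- The interpolated slope of the moving slow coordinates. -/
noncomputable def chat (τ : Ω → ℤ) (cc : Ω → Fin k1 → Fin c → ℝ) (os oss ω : Ω) (r : Fin k1)
    (i : Fin c) : ℝ :=
  cc os r i + (((τ ω : ℝ) - τ os) / ((τ oss : ℝ) - τ os)) * (cc oss r i - cc os r i)

/-- The slope of the static slow coordinates in the frame of the reference time. -/
noncomputable def aT (τ : Ω → ℤ) (a : Ω → Fin k0 → Fin c → ℝ) (cc : Ω → Fin k1 → Fin c → ℝ)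
    (El : Ω → Fin k1 → Fin k0 → ℝ) (Ev : Ω → Fin k0 → Fin c → ℝ) (X : ℕ) (os oss ω : Ω)
    (u : Fin k0) (i : Fin c) : ℝ :=
  a ω u i + ∑ r, chat τ cc os oss ω r i * El os r u - (((τ ω : ℝ) - τ os) / 2 ^ X) * Ev os u i

/-- Linear interpolation of a vector function at two points. -/
noncomputable def lin1 {k : ℕ} (τ : Ω → ℤ) (E : Ω → Fin k → Fin c → ℝ) (o2 o3 : Ω) (u : Fin k)
    (i : Fin c) : ℝ := (E o2 u i - E o3 u i) / ((τ o2 : ℝ) - τ o3)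

/-- Linear interpolation of a vector function at two points. -/
noncomputable def lin0 {k : ℕ} (τ : Ω → ℤ) (E : Ω → Fin k → Fin c → ℝ) (o2 o3 : Ω) (u : Fin k)
    (i : Fin c) : ℝ := E o3 u i - lin1 τ E o2 o3 u i * τ o3

/-- Three-point vectors to interpolation. -/
theorem lin_body {k : ℕ} {τ : Ω → ℤ} {E : Ω → Fin k → Fin c → ℝ} {n : Fin c → ℝ}
    {s ε : ℝ} {X : ℕ} {u : Fin k} {t0 t2 t3 : Ω} (hs : 0 < s) (hs1 : s ≤ 1) (hε : 0 ≤ ε)
    (hτ : |((τ t0 - τ t3 : ℤ) : ℝ)| ≤ 2 ^ X) (hT : s * 2 ^ X < |((τ t2 - τ t3 : ℤ) : ℝ)|)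
    (h1 : |∑ i, n i * d3 τ E u t0 t2 t3 i| ≤ ε) (h2 : |∑ i, n i * d3 τ E u t2 t0 t3 i| ≤ ε) :
    |∑ i, n i * (E t0 u i - lin0 τ E t2 t3 u i - lin1 τ E t2 t3 u i * τ t0)| ≤ ε / s := by
  have key := three_pts (n := n) (u := u) hs hs1 hε hτ hT h1 h2
  refine le_trans (le_of_eq ?_) key
  congr 1
  have hD : ((τ t2 : ℝ) - τ t3) ≠ 0 := by
    have : (0 : ℝ) < |((τ t2 - τ t3 : ℤ) : ℝ)| := lt_of_le_of_lt (by positivity) hT
    push_cast at this
    exact abs_pos.1 this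
  rw [← Finset.sum_sub_distrib, Finset.sum_div, Finset.sum_mul, Finset.sum_mul,
    ← Finset.sum_sub_distrib, ← Finset.sum_sub_distrib, ← Finset.sum_sub_distrib]
  refine Finset.sum_congr rfl fun i _ => ?_
  unfold lin0 lin1
  field_simp

/-- The coefficients of the polynomials of degree two in the time for the static slow
coordinates: reference samples `os`, `oss` and `o2`, `o3`; `tq os` is the time of the second
picture, the square of the time from the reference time in units `2 ^ X`. -/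
noncomputable def Va (τ : Ω → ℤ) (tq : Ω → Ω → ℤ) (a : Ω → Fin k0 → Fin c → ℝ)
    (cc : Ω → Fin k1 → Fin c → ℝ)
    (El : Ω → Fin k1 → Fin k0 → ℝ) (Ev : Ω → Fin k0 → Fin c → ℝ) (X : ℕ) (os oss o2 o3 : Ω) :
    Fin 3 → Fin k0 → Fin c → ℝ :=
  ![fun u i => lin0 (tq os) (aT τ a cc El Ev X os oss) o2 o3 u i +
      lin1 (tq os) (aT τ a cc El Ev X os oss) o2 o3 u i * ((τ os : ℝ) ^ 2 / 2 ^ X) -
      ∑ r, (cc os r i - lin1 τ cc oss os r i * τ os) * El os r u -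
      ((τ os : ℝ) / 2 ^ X) * Ev os u i,
    fun u i => - (2 * lin1 (tq os) (aT τ a cc El Ev X os oss) o2 o3 u i * τ os) -
      ∑ r, (lin1 τ cc oss os r i * 2 ^ X) * El os r u + Ev os u i,
    fun u i => lin1 (tq os) (aT τ a cc El Ev X os oss) o2 o3 u i * 2 ^ X]

/-- The coefficients of the polynomials for the moving slow coordinates. -/
noncomputable def Vc (τ : Ω → ℤ) (cc : Ω → Fin k1 → Fin c → ℝ) (X : ℕ) (o2 o3 : Ω) :
    Fin 3 → Fin k1 → Fin c → ℝ :=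
  ![fun u i => lin0 τ cc o2 o3 u i, fun u i => lin1 τ cc o2 o3 u i * 2 ^ X, fun _ _ => 0]

/-- The basis functions. -/
noncomputable def psi3 (τ : Ω → ℤ) (X : ℕ) (ω : Ω) : Fin 3 → ℝ :=
  ![1, (τ ω : ℝ) / 2 ^ X, ((τ ω : ℝ) / 2 ^ X) ^ 2]

theorem Vc_eq (τ : Ω → ℤ) (cc : Ω → Fin k1 → Fin c → ℝ) (X : ℕ) (o2 o3 ω : Ω) (u : Fin k1)
    (i : Fin c) : cc ω u i - ∑ j, psi3 τ X ω j * Vc τ cc X o2 o3 j u i =
      cc ω u i - lin0 τ cc o2 o3 u i - lin1 τ cc o2 o3 u i * τ ω := by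
  have hX : (2 : ℝ) ^ X ≠ 0 := by positivity
  rw [Fin.sum_univ_three]
  unfold psi3 Vc
  simp only [Matrix.cons_val_zero, Matrix.cons_val_one, Matrix.cons_val]
  field_simp
  ring

theorem Va_eq (τ : Ω → ℤ) (tq : Ω → Ω → ℤ) (a : Ω → Fin k0 → Fin c → ℝ)
    (cc : Ω → Fin k1 → Fin c → ℝ)
    (El : Ω → Fin k1 → Fin k0 → ℝ) (Ev : Ω → Fin k0 → Fin c → ℝ) (X : ℕ) (os oss o2 o3 ω : Ω)
    (u : Fin k0) (i : Fin c) :
    a ω u i - ∑ j, psi3 τ X ω j * Va τ tq a cc El Ev X os oss o2 o3 j u i =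
      aT τ a cc El Ev X os oss ω u i - lin0 (tq os) (aT τ a cc El Ev X os oss) o2 o3 u i -
        lin1 (tq os) (aT τ a cc El Ev X os oss) o2 o3 u i *
          (((τ ω : ℝ) - τ os) ^ 2 / 2 ^ X) := by
  have hX : (2 : ℝ) ^ X ≠ 0 := by positivity
  rw [Fin.sum_univ_three]
  unfold psi3 Va
  simp only [Matrix.cons_val_zero, Matrix.cons_val_one, Matrix.cons_val]
  obtain ⟨A0, hA0⟩ : ∃ A0, A0 = lin0 (tq os) (aT τ a cc El Ev X os oss) o2 o3 u i := ⟨_, rfl⟩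
  obtain ⟨A1, hA1⟩ : ∃ A1, A1 = lin1 (tq os) (aT τ a cc El Ev X os oss) o2 o3 u i := ⟨_, rfl⟩
  rw [← hA0, ← hA1]
  have e1 : aT τ a cc El Ev X os oss ω u i = a ω u i + (∑ r, (cc os r i - lin1 τ cc oss os r i *
      τ os) * El os r u) + (∑ r, (lin1 τ cc oss os r i * 2 ^ X) * El os r u) *
      ((τ ω : ℝ) / 2 ^ X) - (((τ ω : ℝ) - τ os) / 2 ^ X) * Ev os u i := by
    unfold aT
    congr 1
    rw [add_assoc]
    congr 1
    rw [Finset.sum_mul, ← Finset.sum_add_distrib]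
    refine Finset.sum_congr rfl fun r _ => ?_
    unfold chat lin1
    field_simp
    ring
  rw [e1]
  generalize (∑ r, (cc os r i - lin1 τ cc oss os r i * τ os) * El os r u) = S0
  generalize (∑ r, (lin1 τ cc oss os r i * 2 ^ X) * El os r u) = S1
  field_simp
  ring

/-! ### Bounds -/

theorem abs_tau {τ : Ω → ℤ} {X : ℕ} {ω : Ω} (h : 0 ≤ τ ω ∧ τ ω < 2 ^ X) :
    0 ≤ (τ ω : ℝ) ∧ (τ ω : ℝ) ≤ 2 ^ X := by
  refine ⟨by exact_mod_cast h.1, ?_⟩
  have : ((τ ω : ℤ) : ℝ) < ((2 ^ X : ℤ) : ℝ) := by exact_mod_cast h.2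
  push_cast at this
  exact this.le

theorem abs_dtau {τ : Ω → ℤ} {X : ℕ} {ω ω' : Ω} (h : 0 ≤ τ ω ∧ τ ω < 2 ^ X)
    (h' : 0 ≤ τ ω' ∧ τ ω' < 2 ^ X) : |(τ ω : ℝ) - τ ω'| ≤ 2 ^ X := by
  have h1 := abs_tau h
  have h2 := abs_tau h'
  rw [abs_le]
  constructor <;> linarith [h1.1, h1.2, h2.1, h2.2]

theorem lin1_le {k : ℕ} {τ : Ω → ℤ} {E : Ω → Fin k → Fin c → ℝ} {o2 o3 : Ω} {C s : ℝ} {X : ℕ}
    (hs : 0 < s) (h2 : ∀ u i, |E o2 u i| ≤ C) (h3 : ∀ u i, |E o3 u i| ≤ C)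
    (hT : s * 2 ^ X < |((τ o2 - τ o3 : ℤ) : ℝ)|) (u : Fin k) (i : Fin c) :
    |lin1 τ E o2 o3 u i| * 2 ^ X ≤ 2 * C / s := by
  have hX : (0 : ℝ) < 2 ^ X := by positivity
  push_cast at hT
  have hD : 0 < |(τ o2 : ℝ) - τ o3| := lt_of_le_of_lt (by positivity) hT
  unfold lin1
  rw [abs_div, div_mul_eq_mul_div, div_le_div_iff₀ hD hs]
  have h4 : |E o2 u i - E o3 u i| ≤ 2 * C := by
    refine (abs_sub _ _).trans ?_
    have := h2 u i
    have := h3 u i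
    linarith
  have hC : 0 ≤ C := (abs_nonneg _).trans (h2 u i)
  have h5 : |E o2 u i - E o3 u i| * (s * 2 ^ X) ≤ 2 * C * |(τ o2 : ℝ) - τ o3| :=
    mul_le_mul h4 hT.le (by positivity) (by linarith)
  linarith

theorem lin0_le {k : ℕ} {τ : Ω → ℤ} {E : Ω → Fin k → Fin c → ℝ} {o2 o3 : Ω} {C s : ℝ} {X : ℕ}
    (hs : 0 < s) (hs1 : s ≤ 1) (h2 : ∀ u i, |E o2 u i| ≤ C) (h3 : ∀ u i, |E o3 u i| ≤ C)
    (hτ : 0 ≤ (τ o3 : ℝ) ∧ (τ o3 : ℝ) ≤ 2 ^ X)
    (hT : s * 2 ^ X < |((τ o2 - τ o3 : ℤ) : ℝ)|) (u : Fin k) (i : Fin c) :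
    |lin0 τ E o2 o3 u i| ≤ 3 * C / s := by
  have h1 := lin1_le hs h2 h3 hT u i
  have hC : 0 ≤ C := (abs_nonneg _).trans (h2 u i)
  unfold lin0
  refine (abs_sub _ _).trans ?_
  rw [abs_mul, abs_of_nonneg hτ.1]
  have h4 : |lin1 τ E o2 o3 u i| * τ o3 ≤ 2 * C / s :=
    (mul_le_mul_of_nonneg_left hτ.2 (abs_nonneg _)).trans h1
  have h5 : C ≤ C / s := by
    rw [le_div_iff₀ hs]
    nlinarith
  have h6 := h3 u i
  have e3 : 3 * C / s = C / s + 2 * C / s := by ring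
  rw [e3]
  linarith

theorem chat_le {τ : Ω → ℤ} {cc : Ω → Fin k1 → Fin c → ℝ} {os oss ω : Ω} {C s : ℝ} {X : ℕ}
    (hs : 0 < s) (hs1 : s ≤ 1) (h2 : ∀ u i, |cc os u i| ≤ C) (h3 : ∀ u i, |cc oss u i| ≤ C)
    (hτ : |(τ ω : ℝ) - τ os| ≤ 2 ^ X) (hT : s * 2 ^ X < |((τ oss - τ os : ℤ) : ℝ)|)
    (r : Fin k1) (i : Fin c) : |chat τ cc os oss ω r i| ≤ 3 * C / s := by
  have hX : (0 : ℝ) < 2 ^ X := by positivity
  push_cast at hT
  have hD : 0 < |(τ oss : ℝ) - τ os| := lt_of_le_of_lt (by positivity) hT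
  have hC : 0 ≤ C := (abs_nonneg _).trans (h2 r i)
  have h1 : |((τ ω : ℝ) - τ os) / ((τ oss : ℝ) - τ os)| ≤ 1 / s := by
    rw [abs_div, div_le_div_iff₀ hD hs]
    nlinarith
  have h4 : |cc oss r i - cc os r i| ≤ 2 * C := by
    refine (abs_sub _ _).trans ?_
    have := h2 r i
    have := h3 r i
    linarith
  have h5 : C ≤ C / s := by
    rw [le_div_iff₀ hs]
    nlinarith
  unfold chat
  refine (abs_add_le _ _).trans ?_
  rw [abs_mul]
  have h6 := mul_le_mul h1 h4 (abs_nonneg _) (by positivity)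
  have h7 := h2 r i
  have e3 : 3 * C / s = C / s + 1 / s * (2 * C) := by ring
  rw [e3]
  linarith

theorem chat_mul (τ : Ω → ℤ) (cc : Ω → Fin k1 → Fin c → ℝ) (os oss ω : Ω) (r : Fin k1)
    (i : Fin c) (z : ℝ) : chat τ cc os oss ω r i * z =
      chat τ (fun ω (_ : Fin 1) (_ : Fin 1) => cc ω r i * z) os oss ω 0 0 := by
  unfold chat
  ring

/-- The bound of `aT`. -/
noncomputable def CF (k1 : ℕ) (C s : ℝ) : ℝ := 2 * C + k1 * (3 * C / s)

theorem aT_le {τ : Ω → ℤ} {a : Ω → Fin k0 → Fin c → ℝ} {cc : Ω → Fin k1 → Fin c → ℝ}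
    {El : Ω → Fin k1 → Fin k0 → ℝ} {Ev : Ω → Fin k0 → Fin c → ℝ} {os oss ω : Ω} {C s : ℝ} {X : ℕ}
    (hs : 0 < s) (hs1 : s ≤ 1) (ha : ∀ u i, |a ω u i| ≤ C)
    (h2 : ∀ r i u, |cc os r i * El os r u| ≤ C)
    (h3 : ∀ r i u, |cc oss r i * El os r u| ≤ C) (hEv : ∀ u i, |Ev os u i| ≤ C)
    (hτ : |(τ ω : ℝ) - τ os| ≤ 2 ^ X) (hT : s * 2 ^ X < |((τ oss - τ os : ℤ) : ℝ)|)
    (u : Fin k0) (i : Fin c) : |aT τ a cc El Ev X os oss ω u i| ≤ CF k1 C s := by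
  have hX : (0 : ℝ) < 2 ^ X := by positivity
  have h4 : |∑ r, chat τ cc os oss ω r i * El os r u| ≤ k1 * (3 * C / s) := by
    refine (Finset.abs_sum_le_sum_abs _ _).trans ?_
    refine (Finset.sum_le_sum (g := fun _ => 3 * C / s) fun r _ => ?_).trans
      (le_of_eq ?_)
    · rw [chat_mul]
      exact chat_le (cc := fun ω (_ : Fin 1) (_ : Fin 1) => cc ω r i * El os r u) hs hs1
        (fun _ _ => h2 r i u) (fun _ _ => h3 r i u) hτ hT 0 0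
    · rw [Finset.sum_const, Finset.card_univ, Fintype.card_fin, nsmul_eq_mul]
  have h5 : |(((τ ω : ℝ) - τ os) / 2 ^ X) * Ev os u i| ≤ C := by
    rw [abs_mul, abs_div, abs_of_pos hX]
    have h6 : |(τ ω : ℝ) - τ os| / 2 ^ X ≤ 1 := by rwa [div_le_one hX]
    have h7 := mul_le_mul h6 (hEv u i) (abs_nonneg _) zero_le_one
    linarith
  unfold aT CF
  refine (abs_sub _ _).trans ?_
  have h8 := abs_add_le (a ω u i) (∑ r, chat τ cc os oss ω r i * El os r u)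
  have h9 := ha u i
  linarith

/-- The bound of the coefficients. -/
noncomputable def CV5 (k1 : ℕ) (C s : ℝ) : ℝ := 6 * CF k1 C s / s + k1 * (3 * C / s) + 3 * C / s

theorem CF_nonneg {C s : ℝ} (hs : 0 < s) (hC : 0 ≤ C) : 0 ≤ CF k1 C s := by
  unfold CF
  positivity

theorem Va_le {τ : Ω → ℤ} {tq : Ω → Ω → ℤ} {a : Ω → Fin k0 → Fin c → ℝ}
    {cc : Ω → Fin k1 → Fin c → ℝ}
    {El : Ω → Fin k1 → Fin k0 → ℝ} {Ev : Ω → Fin k0 → Fin c → ℝ} {os oss o2 o3 : Ω} {C s : ℝ}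
    {X : ℕ} (hs : 0 < s) (hs1 : s ≤ 1) (hC : 0 ≤ C)
    (ha : ∀ ω, ω = o2 ∨ ω = o3 → ∀ u i, |a ω u i| ≤ C)
    (hc : ∀ ω, ω = os ∨ ω = oss → ∀ r i u, |cc ω r i * El os r u| ≤ C)
    (hEv : ∀ u i, |Ev os u i| ≤ C)
    (hτ : ∀ ω, ω = os ∨ ω = oss ∨ ω = o2 ∨ ω = o3 → 0 ≤ τ ω ∧ τ ω < 2 ^ X)
    (hq : 0 ≤ tq os o3 ∧ tq os o3 < 2 ^ X)
    (hT : s * 2 ^ X < |((τ oss - τ os : ℤ) : ℝ)|)
    (hT2 : s * 2 ^ X < |((tq os o2 - tq os o3 : ℤ) : ℝ)|)
    (j : Fin 3) (u : Fin k0) (i : Fin c) :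
    |Va τ tq a cc El Ev X os oss o2 o3 j u i| ≤ CV5 k1 C s := by
  have hX : (0 : ℝ) < 2 ^ X := by positivity
  have hCF : 0 ≤ CF k1 C s := CF_nonneg hs hC
  have hos := hτ os (.inl rfl)
  have t0 := abs_tau hos
  have hF : ∀ ω, ω = o2 ∨ ω = o3 → ∀ u i, |aT τ a cc El Ev X os oss ω u i| ≤ CF k1 C s := by
    intro ω hω u i
    refine aT_le hs hs1 (ha ω hω) (hc os (.inl rfl)) (hc oss (.inr rfl)) hEv ?_ hT u i
    exact abs_dtau (hτ ω (by rcases hω with h | h <;> simp [h])) hos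
  have L1 := lin1_le (E := aT τ a cc El Ev X os oss) hs (hF o2 (.inl rfl)) (hF o3 (.inr rfl)) hT2 u i
  have L0 := lin0_le (E := aT τ a cc El Ev X os oss) hs hs1 (hF o2 (.inl rfl)) (hF o3 (.inr rfl))
    (abs_tau hq) hT2 u i
  have l1 := fun r => lin1_le (E := fun ω (_ : Fin 1) (_ : Fin 1) => cc ω r i * El os r u) hs
    (fun _ _ => hc oss (.inr rfl) r i u) (fun _ _ => hc os (.inl rfl) r i u) hT 0 0
  have l0 := fun r => lin0_le (E := fun ω (_ : Fin 1) (_ : Fin 1) => cc ω r i * El os r u) hs hs1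
    (fun _ _ => hc oss (.inr rfl) r i u) (fun _ _ => hc os (.inl rfl) r i u) t0 hT 0 0
  have hks : (0 : ℝ) ≤ k1 * (3 * C / s) := by positivity
  have hCs : C ≤ 3 * C / s := by
    rw [le_div_iff₀ hs]
    nlinarith
  obtain ⟨l, hl⟩ : ∃ l, l = lin1 (tq os) (aT τ a cc El Ev X os oss) o2 o3 u i := ⟨_, rfl⟩
  rw [← hl] at L1
  have q1 : |l| * 2 ^ X ≤ 2 * CF k1 C s / s := L1
  have q2 : |l * ((τ os : ℝ) ^ 2 / 2 ^ X)| ≤ 2 * CF k1 C s / s := by
    rw [abs_mul, abs_of_nonneg (by positivity : (0 : ℝ) ≤ (τ os : ℝ) ^ 2 / 2 ^ X)]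
    refine (mul_le_mul_of_nonneg_left ?_ (abs_nonneg _)).trans q1
    rw [div_le_iff₀ hX, ← pow_two]
    exact pow_le_pow_left₀ t0.1 t0.2 2
  have q3 : |2 * l * τ os| ≤ 4 * CF k1 C s / s := by
    rw [abs_mul, abs_mul, abs_of_nonneg t0.1, abs_two]
    have e1 : 2 * |l| * (τ os : ℝ) ≤ 2 * |l| * 2 ^ X := by
      have := t0.2
      gcongr
    have e3 : 4 * CF k1 C s / s = 2 * (2 * CF k1 C s / s) := by ring
    rw [e3]
    linarith
  have hC0s : 0 ≤ CF k1 C s / s := by positivity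
  have eCF : ∀ y : ℝ, y * CF k1 C s / s = y * (CF k1 C s / s) := fun y => by ring
  rw [eCF] at q1 q2 q3 L0
  unfold CV5
  rw [eCF]
  fin_cases j
  · show |lin0 (tq os) (aT τ a cc El Ev X os oss) o2 o3 u i +
      lin1 (tq os) (aT τ a cc El Ev X os oss) o2 o3 u i * ((τ os : ℝ) ^ 2 / 2 ^ X) -
      ∑ r, (cc os r i - lin1 τ cc oss os r i * τ os) * El os r u -
      ((τ os : ℝ) / 2 ^ X) * Ev os u i| ≤ _
    rw [← hl]
    have s1 : |∑ r, (cc os r i - lin1 τ cc oss os r i * τ os) * El os r u| ≤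
        k1 * (3 * C / s) := by
      refine (Finset.abs_sum_le_sum_abs _ _).trans ?_
      refine (Finset.sum_le_sum (g := fun _ => 3 * C / s) fun r _ => ?_).trans (le_of_eq ?_)
      · have e1 : (cc os r i - lin1 τ cc oss os r i * τ os) * El os r u =
            lin0 τ (fun ω (_ : Fin 1) (_ : Fin 1) => cc ω r i * El os r u) oss os 0 0 := by
          unfold lin0 lin1
          ring
        rw [e1]
        exact l0 r
      · rw [Finset.sum_const, Finset.card_univ, Fintype.card_fin, nsmul_eq_mul]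
    have s2 : |((τ os : ℝ) / 2 ^ X) * Ev os u i| ≤ C := by
      rw [abs_mul, abs_div, abs_of_pos hX, abs_of_nonneg t0.1]
      have h6 : (τ os : ℝ) / 2 ^ X ≤ 1 := by
        rw [div_le_one hX]
        exact t0.2
      have h7 := mul_le_mul h6 (hEv u i) (abs_nonneg _) zero_le_one
      linarith
    refine (abs_sub _ _).trans ?_
    have s3 := abs_sub (lin0 (tq os) (aT τ a cc El Ev X os oss) o2 o3 u i +
      l * ((τ os : ℝ) ^ 2 / 2 ^ X)) (∑ r, (cc os r i - lin1 τ cc oss os r i * τ os) * El os r u)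
    have s4 := abs_add_le (lin0 (tq os) (aT τ a cc El Ev X os oss) o2 o3 u i)
      (l * ((τ os : ℝ) ^ 2 / 2 ^ X))
    linarith
  · show |- (2 * lin1 (tq os) (aT τ a cc El Ev X os oss) o2 o3 u i * τ os) -
      ∑ r, (lin1 τ cc oss os r i * 2 ^ X) * El os r u + Ev os u i| ≤ _
    rw [← hl]
    have s1 : |∑ r, (lin1 τ cc oss os r i * 2 ^ X) * El os r u| ≤ k1 * (3 * C / s) := by
      refine (Finset.abs_sum_le_sum_abs _ _).trans ?_
      refine (Finset.sum_le_sum (g := fun _ => 3 * C / s) fun r _ => ?_).trans (le_of_eq ?_)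
      · have e1 : (lin1 τ cc oss os r i * 2 ^ X) * El os r u =
            lin1 τ (fun ω (_ : Fin 1) (_ : Fin 1) => cc ω r i * El os r u) oss os 0 0 * 2 ^ X := by
          unfold lin1
          ring
        rw [e1, abs_mul, abs_of_pos hX]
        refine (l1 r).trans ?_
        gcongr
        norm_num
      · rw [Finset.sum_const, Finset.card_univ, Fintype.card_fin, nsmul_eq_mul]
    have s2 := hEv u i
    refine (abs_add_le _ _).trans ?_
    have s3 := abs_sub (- (2 * l * τ os)) (∑ r, (lin1 τ cc oss os r i * 2 ^ X) * El os r u)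
    rw [abs_neg] at s3
    linarith
  · show |lin1 (tq os) (aT τ a cc El Ev X os oss) o2 o3 u i * 2 ^ X| ≤ _
    rw [← hl, abs_mul, abs_of_pos hX]
    have h3C : 0 ≤ 3 * C / s := by positivity
    linarith

theorem Vc_le {τ : Ω → ℤ} {cc : Ω → Fin k1 → Fin c → ℝ} {o2 o3 : Ω} {C s : ℝ}
    {X : ℕ} (hs : 0 < s) (hs1 : s ≤ 1) (hC : 0 ≤ C) (h2 : ∀ u i, |cc o2 u i| ≤ C)
    (h3 : ∀ u i, |cc o3 u i| ≤ C) (hτ : 0 ≤ (τ o3 : ℝ) ∧ (τ o3 : ℝ) ≤ 2 ^ X)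
    (hT : s * 2 ^ X < |((τ o2 - τ o3 : ℤ) : ℝ)|) (j : Fin 3) (u : Fin k1) (i : Fin c) :
    |Vc τ cc X o2 o3 j u i| ≤ CV5 k1 C s := by
  have hX : (0 : ℝ) < 2 ^ X := by positivity
  have hCF : 0 ≤ CF k1 C s := CF_nonneg hs hC
  have h4 := lin1_le hs h2 h3 hT u i
  have h5 := lin0_le hs hs1 h2 h3 hτ hT u i
  have h6 : 3 * C / s ≤ CV5 k1 C s := by
    unfold CV5
    have : 0 ≤ 6 * CF k1 C s / s + k1 * (3 * C / s) := by positivity
    linarith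
  have h7 : 2 * C / s ≤ 3 * C / s := by
    gcongr
    norm_num
  have h8 : (0 : ℝ) ≤ 3 * C / s := by positivity
  fin_cases j
  · exact h5.trans h6
  · show |lin1 τ cc o2 o3 u i * 2 ^ X| ≤ _
    rw [abs_mul, abs_of_pos hX]
    linarith
  · show |(0 : ℝ)| ≤ _
    rw [abs_zero]
    linarith

end Pool.LBL
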