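import Pool.Agent.H36.LBL.Body

/-!
# The body is a function of the line, general data (K_POT)

`body_lineQ`: a body `A ω` which is conserved along the lines and contains, for most tuples of
samples of a line, the difference of the slopes and of a combination of basis functions of the time
whose coefficients are functions of the reference samples is, up to a factor, a function of the
line, and the slopes are combinations of the basis functions modulo this body with coefficients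
which are functions of the line.
-/

set_option autoImplicit false

namespace Pool.LBL

open Finset Real Matrix
open Pool.Agent.H49.Ent Pool.Agent.H32.Dense Pool.STK Pool.SLO
open Pool.BFL (Pb)

variable {c k m : ℕ} {Ω Λ : Type} [Fintype Ω] {p : Ω → ℝ}

/-- The slopes minus the combination of the basis functions. -/
noncomputable def xq (ψ : Ω → Fin m → ℝ) (E : Ω → Fin k → Fin c → ℝ)
    (V : Fin m → Fin k → Fin c → ℝ) (ω : Ω) (u : Fin k) (i : Fin c) : ℝ :=
  E ω u i - ∑ j, ψ ω j * V j u i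

/-- **The body is a function of the line**, general data. -/
theorem body_lineQ (hp : IsLaw p) (L : Ω → Λ) (A M : Ω → Matrix (Fin c) (Fin c) ℝ)
    (ψ : Ω → Fin m → ℝ) (E : Ω → Fin k → Fin c → ℝ) (N : ℕ)
    (V : (Fin N → Ω) → Fin m → Fin k → Fin c → ℝ) {K η : ℝ}
    (htr : Pb (tup p L 1) (fun w => ¬ ∀ i j,
      |((A (w 0))⁻¹ * (M (w 0) * (M (w 1))⁻¹ * A (w 1))) i j| ≤ K) ≤ η)
    (hbd : Pb (tup p L N) (fun w => ¬ ∀ u b, |((A (w 0))⁻¹ *ᵥ (M (w 0) *ᵥ
      xq ψ E (V (fun r => w r.succ)) (w 0) u)) b| ≤ K) ≤ η) :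
    ∃ (rf : Λ → Ω) (fx : Λ → Fin N → Ω),
      (∀ ω, 0 < p ω → L (rf (L ω)) = L ω ∧ 0 < p (rf (L ω))) ∧
      1 - 3 * η ≤ Pb p (fun ω =>
        (∀ i j, |((A (rf (L ω)))⁻¹ * (M (rf (L ω)) * (M ω)⁻¹ * A ω)) i j| ≤ K) ∧
        (∀ i j, |((A ω)⁻¹ * (M ω * (M (rf (L ω)))⁻¹ * A (rf (L ω)))) i j| ≤ K) ∧
        ∀ u b, |((A ω)⁻¹ *ᵥ (M ω *ᵥ xq ψ E (V (fx (L ω))) ω u)) b| ≤ K) := by
  classical
  have h0 := hp.nonneg
  obtain ⟨Gd, hGd⟩ : ∃ Gd : (Fin (N + 2) → Ω) → Prop, Gd = fun w =>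
    (∀ i j, |((A (w 1))⁻¹ * (M (w 1) * (M (w 0))⁻¹ * A (w 0))) i j| ≤ K) ∧
    (∀ i j, |((A (w 0))⁻¹ * (M (w 0) * (M (w 1))⁻¹ * A (w 1))) i j| ≤ K) ∧
    (∀ u b, |((A (w 0))⁻¹ *ᵥ (M (w 0) *ᵥ
      xq ψ E (V (fun r => w r.succ.succ)) (w 0) u)) b| ≤ K) := ⟨_, rfl⟩
  have hPG : 1 - 3 * η ≤ Pb (tup p L (N + 1)) Gd := by
    have a0 : Pb (tup p L (N + 1)) (fun _ => True) = 1 := by
      unfold Pb
      simp only [if_true]
      exact (tup_isLaw hp L (N + 1)).sum_one
    obtain ⟨B, hB⟩ : ∃ B : Fin 3 → (Fin (N + 2) → Ω) → Prop, B = ![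
      fun w => ¬ ∀ i j, |((A (w 1))⁻¹ * (M (w 1) * (M (w 0))⁻¹ * A (w 0))) i j| ≤ K,
      fun w => ¬ ∀ i j, |((A (w 0))⁻¹ * (M (w 0) * (M (w 1))⁻¹ * A (w 1))) i j| ≤ K,
      fun w => ¬ ∀ u b, |((A (w 0))⁻¹ *ᵥ (M (w 0) *ᵥ
        xq ψ E (V (fun r => w r.succ.succ)) (w 0) u)) b| ≤ K] := ⟨_, rfl⟩
    have b0 : Pb (tup p L (N + 1)) (B 0) ≤ η := by
      have b3 := pmarg (tup_sub h0 L (M := 1) (N := N + 1) ![1, 0] (by
        intro a b hab
        fin_cases a <;> fin_cases b <;> simp_all))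
        (fun w => ¬ ∀ i j, |((A (w 0))⁻¹ * (M (w 0) * (M (w 1))⁻¹ * A (w 1))) i j| ≤ K)
      rw [hB]
      exact (le_of_eq b3).trans htr
    have b1 : Pb (tup p L (N + 1)) (B 1) ≤ η := by
      have b3 := pmarg (tup_sub h0 L (M := 1) (N := N + 1) ![0, 1] (by
        intro a b hab
        fin_cases a <;> fin_cases b <;> simp_all))
        (fun w => ¬ ∀ i j, |((A (w 0))⁻¹ * (M (w 0) * (M (w 1))⁻¹ * A (w 1))) i j| ≤ K)
      rw [hB]
      exact (le_of_eq b3).trans htr
    have b2 : Pb (tup p L (N + 1)) (B 2) ≤ η := by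
      have b3 := pmarg (tup_sub h0 L (M := N) (N := N + 1) (Fin.cons 0 (fun r => r.succ.succ)) (by
        intro a b
        refine Fin.cases ?_ (fun a => ?_) a <;> refine Fin.cases ?_ (fun b => ?_) b
        · intro _
          rfl
        · intro h
          rw [Fin.cons_zero, Fin.cons_succ] at h
          exact absurd h.symm (Fin.succ_ne_zero _)
        · intro h
          rw [Fin.cons_zero, Fin.cons_succ] at h
          exact absurd h (Fin.succ_ne_zero _)
        · intro h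
          simp only [Fin.cons_succ] at h
          rw [Fin.succ_injective _ (Fin.succ_injective _ h)]))
        (fun w => ¬ ∀ u b, |((A (w 0))⁻¹ *ᵥ (M (w 0) *ᵥ
          xq ψ E (V (fun r => w r.succ)) (w 0) u)) b| ≤ K)
      rw [hB]
      exact (le_of_eq b3).trans hbd
    have b5 := pbad (tup_nonneg h0 L (N + 1)) univ (A := fun _ => True) (G := Gd) B (by
      intro w _ _
      by_cases hh : ∃ i ∈ (univ : Finset (Fin 3)), B i w
      · exact .inl hh
      · right
        push Not at hh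
        have g0 := hh 0 (mem_univ _)
        have g1 := hh 1 (mem_univ _)
        have g2 := hh 2 (mem_univ _)
        rw [hB] at g0 g1 g2
        rw [hGd]
        exact ⟨not_not.1 g0, not_not.1 g1, not_not.1 g2⟩)
    rw [Fin.sum_univ_three, a0] at b5
    linarith
  obtain ⟨f, hf, hfP⟩ := tup_fix hp L (N + 1) Gd
  refine ⟨fun z => f z 0, fun z r => f z r.succ, fun ω hω => hf ω hω 0, ?_⟩
  refine hPG.trans (hfP.trans (pmono h0 fun ω hω hg => ?_))
  rw [hGd] at hg
  exact hg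

end Pool.LBL
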