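import Pool.Agent.H36.LBQ.Hbd5

/-!
# The covector of P5

`cov5`: a body `A (P ω)` which is conserved along the coarse lines, has a small covector and
contains, for most tuples of samples of a line, the three-point vectors of the slopes of the moving
slow coordinates with respect to the time and the three-point vectors of the corrected slopes of
the static slow coordinates with respect to the square of the time from a reference time. Then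
there is a covector with a leading coordinate outside `Fz` which is a function of the exact point
and, modulo the known covectors, of the exact line, and on which the slopes are polynomials of
degree two in the time, whose coefficients are functions of the exact line; for the moving slow
coordinates the polynomials are affine.
-/

set_option autoImplicit false

namespace Pool.LBL

open Finset Real Matrix
open Pool.Agent.H49.Ent Pool.Agent.H32.Dense Pool.STK Pool.SLO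
open Pool.BFL (Pb)
open Pool.QT64 (d3)
open Pool.POT (pw pw_pos pw_add pw_le pw_zero one_le_pw pw_inv ex_pw)

/-- The numbers. -/
theorem num5 {c k1 : ℕ} {s y : ℝ} (hs : 0 < s)
    (hy : 2 + 3 * k1 / s + c * (1 / s + 2 * c ^ 2 / s) + (9 + 3 * k1) / s ≤ y) :
    CV5 k1 y s ≤ y ^ 8 ∧ c * (y * (y / s + c * (c * y * (2 * CF k1 y s / s)))) ≤ y ^ 8 := by
  have hk : (0 : ℝ) ≤ k1 := Nat.cast_nonneg k1
  have hc : (0 : ℝ) ≤ c := Nat.cast_nonneg c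
  obtain ⟨n1, hn1⟩ : ∃ n1 : ℝ, n1 = 2 + 3 * k1 / s := ⟨_, rfl⟩
  obtain ⟨n2, hn2⟩ : ∃ n2 : ℝ, n2 = c * (1 / s + 2 * c ^ 2 / s) := ⟨_, rfl⟩
  obtain ⟨n3, hn3⟩ : ∃ n3 : ℝ, n3 = (9 + 3 * k1) / s := ⟨_, rfl⟩
  have p1 : 2 ≤ n1 := by
    rw [hn1]
    have : 0 ≤ 3 * (k1 : ℝ) / s := by positivity
    linarith
  have p2 : 0 ≤ n2 := by rw [hn2]; positivity
  have p3 : 0 ≤ n3 := by rw [hn3]; positivity
  rw [← hn1, ← hn2, ← hn3] at hy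
  have y1 : n1 ≤ y := by linarith
  have y2 : n2 ≤ y := by linarith
  have y3 : n3 ≤ y := by linarith
  have hy1 : 1 ≤ y := by linarith
  have hy0 : 0 < y := by linarith
  have hpw : ∀ a b : ℕ, a ≤ b → y ^ a ≤ y ^ b := fun a b h => pow_le_pow_right₀ hy1 h
  have hCF : CF k1 y s ≤ y ^ 3 := by
    have e1 : CF k1 y s = n1 * y := by
      unfold CF
      rw [hn1]
      ring
    rw [e1]
    calc n1 * y ≤ y * y := mul_le_mul_of_nonneg_right y1 hy0.le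
      _ = y ^ 2 := by ring
      _ ≤ y ^ 3 := hpw 2 3 (by norm_num)
  constructor
  · unfold CV5
    have e1 : 6 * CF k1 y s / s ≤ 6 / s * y ^ 3 := by
      have : 6 * CF k1 y s / s = 6 / s * CF k1 y s := by ring
      rw [this]
      exact mul_le_mul_of_nonneg_left hCF (by positivity)
    have e2 : k1 * (3 * y / s) ≤ 3 * k1 / s * y ^ 3 := by
      have : k1 * (3 * y / s) = 3 * k1 / s * y ^ 1 := by ring
      rw [this]
      exact mul_le_mul_of_nonneg_left (hpw 1 3 (by norm_num)) (by positivity)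
    have e3 : 3 * y / s ≤ 3 / s * y ^ 3 := by
      have : 3 * y / s = 3 / s * y ^ 1 := by ring
      rw [this]
      exact mul_le_mul_of_nonneg_left (hpw 1 3 (by norm_num)) (by positivity)
    calc 6 * CF k1 y s / s + k1 * (3 * y / s) + 3 * y / s ≤
          6 / s * y ^ 3 + 3 * k1 / s * y ^ 3 + 3 / s * y ^ 3 := by linarith
      _ = n3 * y ^ 3 := by
          rw [hn3]
          ring
      _ ≤ y * y ^ 3 := mul_le_mul_of_nonneg_right y3 (by positivity)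
      _ = y ^ 4 := by ring
      _ ≤ y ^ 8 := hpw 4 8 (by norm_num)
  · have e1 : c * (y * (y / s + c * (c * y * (2 * CF k1 y s / s)))) =
        c / s * y ^ 2 + c * (2 * c ^ 2 / s) * (y ^ 2 * CF k1 y s) := by
      ring
    have e2 : c / s * y ^ 2 ≤ c / s * y ^ 5 :=
      mul_le_mul_of_nonneg_left (hpw 2 5 (by norm_num)) (by positivity)
    have e3 : c * (2 * c ^ 2 / s) * (y ^ 2 * CF k1 y s) ≤ c * (2 * c ^ 2 / s) * y ^ 5 := by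
      refine mul_le_mul_of_nonneg_left ?_ (by positivity)
      calc y ^ 2 * CF k1 y s ≤ y ^ 2 * y ^ 3 := mul_le_mul_of_nonneg_left hCF (by positivity)
        _ = y ^ 5 := by ring
    rw [e1]
    calc c / s * y ^ 2 + c * (2 * c ^ 2 / s) * (y ^ 2 * CF k1 y s) ≤
          c / s * y ^ 5 + c * (2 * c ^ 2 / s) * y ^ 5 := add_le_add e2 e3
      _ = n2 * y ^ 5 := by
          rw [hn2]
          ring
      _ ≤ y * y ^ 5 := mul_le_mul_of_nonneg_right y2 (by positivity)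
      _ = y ^ 6 := by ring
      _ ≤ y ^ 8 := hpw 6 8 (by norm_num)

theorem psi3_sum {Ω : Type} (τ : Ω → ℤ) (X : ℕ) (ω : Ω) (e : Fin 3 → ℝ) :
    ∑ j, e j * psi3 τ X ω j =
      e 0 + e 1 * ((τ ω : ℝ) / 2 ^ X) + e 2 * ((τ ω : ℝ) / 2 ^ X) ^ 2 := by
  rw [Fin.sum_univ_three]
  unfold psi3
  simp only [Matrix.cons_val_zero, Matrix.cons_val_one, Matrix.cons_val]
  ring

set_option maxHeartbeats 4000000 in
/-- **The covector of P5.** -/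
theorem cov5 (c k0 k1 : ℕ) (n₀ : Fin c) (hn₀ : ∀ i, i ≤ n₀) (p0 x1 ep w0 : ℝ) (hp0 : 0 < p0)
    (hx1 : 0 < x1) (hep : 0 < ep) (hw0 : 0 < w0) :
    ∃ x2 p2 η κ : ℝ, 0 < x2 ∧ 0 < p2 ∧ 0 < η ∧ 0 < κ ∧ η ≤ p0 ∧ κ ≤ x1 / 2 ∧
    ∀ s : ℝ, 0 < s → s ≤ 1 → ∃ X0 : ℕ, ∀ X : ℕ, X0 ≤ X →
    ∀ {Ω Λ Pt Λ' Ξ : Type} [Fintype Ω] {p : Ω → ℝ}, IsLaw p →
    ∀ (L : Ω → Λ) (P : Ω → Pt) (L' : Ω → Λ') (pt : Ω → Ξ), Det p L' L → Det p pt P →
    ∀ (A : Pt → Matrix (Fin c) (Fin c) ℝ) (M : Ω → Matrix (Fin c) (Fin c) ℝ)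
      (τ : Ω → ℤ) (tq : Ω → Ω → ℤ) (E : Ω → Fin (k0 + k1) → Fin c → ℝ)
      (El : Ω → Fin k1 → Fin k0 → ℝ) (Ev : Ω → Fin k0 → Fin c → ℝ)
      (Fz : Finset (Fin c)) (fD : Ξ → Fin c → Fin c → ℝ) (fL : Λ' → Fin c → Fin c → ℝ)
      (φ : Λ' → Fin c → Fin 3 → Fin (k0 + k1) → ℝ) (Gd : Ω → Prop) (B : ℕ), 1 / (B : ℝ) ≤ ep →
    (∀ Q, (A Q).det ≠ 0) → (∀ Q i b, |A Q i b| ≤ 2 ^ (κ * X)) →
    (∀ Q i b, |(A Q)⁻¹ i b| ≤ 2 ^ X) →
    (∀ ω, Uni (M ω)) → (∀ ω i j, |M ω i j| ≤ 2 ^ (κ * X)) →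
    (∀ ω i j, |(M ω)⁻¹ i j| ≤ 2 ^ (κ * X)) →
    (∀ ω, 0 < p ω → ∀ u i, |E ω u i| ≤ 2 ^ (κ * X)) →
    (∀ ω ω', 0 < p ω → 0 < p ω' → ∀ r i u,
      |E ω (Fin.natAdd k0 r) i * El ω' r u| ≤ 2 ^ (κ * X)) →
    (∀ ω, 0 < p ω → ∀ u i, |Ev ω u i| ≤ 2 ^ (κ * X)) →
    (∀ ω, 0 < p ω → 0 ≤ τ ω ∧ τ ω < 2 ^ X) →
    (∀ ω ω', 0 < p ω → 0 < p ω' → 0 ≤ tq ω ω' ∧ tq ω ω' < 2 ^ X) →
    (∀ ω ω', 0 < p ω → 0 < p ω' → |(tq ω ω' : ℝ) - ((τ ω' : ℝ) - τ ω) ^ 2 / 2 ^ X| ≤ 1) →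
    n₀ ∉ Fz →
    Pb p (fun ω => ¬ Gd ω) ≤ η →
    (∀ ξ, ∀ g ∈ Fz, Ld g (fD ξ g) ∧ ∀ i, |fD ξ g i| ≤ 2 ^ (κ * X)) →
    (∀ ω, 0 < p ω → Gd ω → ∀ g ∈ Fz, ∀ i,
      |(fD (pt ω) g ᵥ* M ω) i - fL (L' ω) g i| ≤ 2 ^ (-((ep + w0) * X))) →
    (∀ ω, 0 < p ω → Gd ω → ∀ g ∈ Fz, ∀ u,
      |∑ i, fL (L' ω) g i * E ω u i - ∑ j, φ (L' ω) g j u * psi3 τ X ω j| ≤
        2 ^ (-((ep + w0) * X))) →
    (∀ z, ∀ g ∈ Fz, ∀ j u, |φ z g j u| ≤ 2 ^ (κ * X)) →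
    p0 ≤ Pb p (fun ω => ∃ m', Ad (A (P ω)) n₀ ((2 : ℝ) ^ ((X : ℝ) / B))
      (2 ^ (-((x1 - κ) * X))) m') →
    Pb (tup p L 1) (fun w => ¬ ∀ i j,
      |((A (P (w 0)))⁻¹ * (M (w 0) * (M (w 1))⁻¹ * A (P (w 1)))) i j| ≤ 2 ^ (κ * X)) ≤ η →
    Pb (tup p L 3) (fun w => ¬ ∀ u b, |((A (P (w 0)))⁻¹ *ᵥ (M (w 0) *ᵥ
      d3 τ (fun ω r => E ω (Fin.natAdd k0 r)) u (w 1) (w 2) (w 3))) b| ≤ 2 ^ (κ * X)) ≤ η →
    Pb (tup p L 5) (fun w => ¬ ∀ u b, |((A (P (w 0)))⁻¹ *ᵥ (M (w 0) *ᵥ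
      d3 (tq (w 4)) (aT τ (fun ω u => E ω (Fin.castAdd k1 u))
        (fun ω r => E ω (Fin.natAdd k0 r)) El Ev X (w 4) (w 5)) u (w 1) (w 2) (w 3))) b| ≤
        2 ^ (κ * X)) ≤ η →
    Pb (tup p L 1) (fun w => |((τ (w 0) - τ (w 1) : ℤ) : ℝ)| ≤ s * 2 ^ X) ≤ η →
    Pb (tup p L 2) (fun w => |((tq (w 0) (w 1) - tq (w 0) (w 2) : ℤ) : ℝ)| ≤ s * 2 ^ X) ≤ η →
    ∃ (l : Fin c) (nD : Ξ → Fin c → ℝ) (nL : Λ' → Fin c → ℝ)
      (e : Λ' → Fin 3 → Fin (k0 + k1) → ℝ), l ∉ Fz ∧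
      (∀ ξ, Ld l (nD ξ) ∧ (∀ g ∈ Fz, nD ξ g = 0) ∧ ∀ i, |nD ξ i| ≤ 2 ^ ((ep + w0) * X)) ∧
      (∀ z, Ld l (nL z) ∧ ∀ i, |nL z i| ≤ 2 ^ ((ep + w0) * X)) ∧
      (∀ z j u, |e z j u| ≤ 2 ^ ((ep + w0) * X)) ∧
      (∀ r, (∀ z, ∀ g ∈ Fz, φ z g 2 (Fin.natAdd k0 r) = 0) →
        ∀ z, e z 2 (Fin.natAdd k0 r) = 0) ∧
      p2 ≤ Pb p (fun ω =>
        (∃ r : Fin c → ℝ, (∀ g, |r g| ≤ 2 ^ ((ep + w0) * X)) ∧
          ∀ i, |(nD (pt ω) ᵥ* M ω) i - nL (L' ω) i + ∑ g ∈ Fz, r g * fL (L' ω) g i| ≤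
            2 ^ (-(x2 * X))) ∧
        ∀ u, |∑ i, nL (L' ω) i * E ω u i - ∑ j, e (L' ω) j u * psi3 τ X ω j| ≤
          2 ^ (-(x2 * X))) := by
  obtain ⟨x2, p2, η, κ, hx2, hp2, hη, hκ, hηp, hκx, X1, cov⟩ :=
    covA c (k0 + k1) 3 n₀ hn₀ p0 x1 ep w0 hp0 hx1 hep hw0
  refine ⟨x2, p2, η / 7, κ / 8, hx2, hp2, by positivity, by positivity, by linarith, by linarith,
    ?_⟩
  intro s hs hs1
  obtain ⟨X2, h2⟩ := ex_pw (a := κ / 8) (by positivity)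
    (2 + 3 * k1 / s + c * (1 / s + 2 * c ^ 2 / s) + (9 + 3 * k1) / s)
  refine ⟨max X1 X2, ?_⟩
  intro X hX Ω Λ Pt Λ' Ξ _ p hp L P L' pt hLL hPP A M τ tq E El Ev Fz fD fL φ Gd B hB hdet hA hAi
    hM hMG hMi hE hEl hEv hτ hq hqr hn hGd hfD hfL hfE hφ hcv htr hF1 hF2 htm1 htm2
  have hy := h2 X ((le_max_right _ _).trans hX)
  have hX0 : (0 : ℝ) ≤ X := Nat.cast_nonneg X
  obtain ⟨y, hyd⟩ : ∃ y : ℝ, y = 2 ^ (κ / 8 * X) := ⟨_, rfl⟩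
  have hyp : pw X (κ / 8) = y := by rw [hyd]; rfl
  rw [hyp] at hy
  have hy0 : 0 < y := by rw [hyd]; positivity
  have hy8 : y ^ 8 = 2 ^ (κ * X) := by
    rw [hyd, ← Real.rpow_natCast, ← Real.rpow_mul (by norm_num)]
    congr 1
    push_cast
    ring
  have hle : y ≤ 2 ^ (κ * X) := by
    rw [hyd]
    refine Real.rpow_le_rpow_of_exponent_le (by norm_num) ?_
    nlinarith [mul_nonneg hκ.le hX0]
  rw [← hyd] at hA hMG hMi hE hEl hEv hfD hφ htr hF1 hF2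
  obtain ⟨n1, n2⟩ := num5 (c := c) (k1 := k1) hs hy
  have ea : ∀ ω, Fin.append (fun u => E ω (Fin.castAdd k1 u)) (fun r => E ω (Fin.natAdd k0 r)) =
      E ω := by
    intro ω
    funext u
    refine Fin.addCases (fun u => ?_) (fun u => ?_) u
    · rw [Fin.append_left]
    · rw [Fin.append_right]
  have hb := hbd5 hp L P A M τ tq (fun ω u => E ω (Fin.castAdd k1 u))
    (fun ω r => E ω (Fin.natAdd k0 r)) El Ev (X := X) (C := y) (s := s) (G := y) (K := y)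
    (η := η / 7) hs hs1 hy0.le hy0.le hy0.le hdet hAi hM hMG (fun ω hω u i => hE ω hω _ i)
    hEl hEv hτ hq hqr htr hF1 hF2 htm1 htm2
  simp only [ea] at hb
  have e7 : 7 * (η / 7) = η := by ring
  rw [e7] at hb
  have h0 := hp.nonneg
  have htr' : Pb (tup p L 1) (fun w => ¬ ∀ i j,
      |((A (P (w 0)))⁻¹ * (M (w 0) * (M (w 1))⁻¹ * A (P (w 1)))) i j| ≤ 2 ^ (κ * X)) ≤ η := by
    have h7 : η / 7 ≤ η := by linarith
    refine le_trans ?_ (htr.trans h7)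
    exact pmono (tup_nonneg h0 L 1) fun w _ hw h => hw fun i j => (h i j).trans hle
  have hb' : Pb (tup p L 5) (fun w => ¬ ∀ u b, |((A (P (w 0)))⁻¹ *ᵥ (M (w 0) *ᵥ
      xq (psi3 τ X) E (V5 p τ tq (fun ω u => E ω (Fin.castAdd k1 u))
        (fun ω r => E ω (Fin.natAdd k0 r)) El Ev X s (fun r => w r.succ)) (w 0) u)) b| ≤
      2 ^ (κ * X)) ≤ η := by
    refine le_trans ?_ hb
    exact pmono (tup_nonneg h0 L 5) fun w _ hw h => hw fun u b =>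
      (h u b).trans (n2.trans hy8.le)
  have key := cov X ((le_max_left _ _).trans hX) hp L P L' pt hLL hPP A M (psi3 τ X) E 5
    (V5 p τ tq (fun ω u => E ω (Fin.castAdd k1 u)) (fun ω r => E ω (Fin.natAdd k0 r)) El Ev X s)
    Fz fD fL φ Gd B hB hdet (fun Q i b => (hA Q i b).trans hle) hM
    (fun ω i j => (hMG ω i j).trans hle) (fun ω i j => (hMi ω i j).trans hle)
    (fun ω hω u i => (hE ω hω u i).trans hle)
    (fun x j u i => (V5_le hs hs1 hy0.le (fun ω hω u i => hE ω hω _ i)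
      (fun ω hω u i => hE ω hω _ i) hEl hEv hτ hq x j u i).trans (n1.trans hy8.le)) hn
    (hGd.trans (by linarith))
    (fun ξ g hg => ⟨(hfD ξ g hg).1, fun i => ((hfD ξ g hg).2 i).trans hle⟩) hfL hfE
    (fun z g hg j u => (hφ z g hg j u).trans hle)
    (hcv.trans (pmono h0 fun ω _ hm => by
      obtain ⟨m', hm'⟩ := hm
      refine ⟨m', hm'.mono le_rfl ?_⟩
      refine Real.rpow_le_rpow_of_exponent_le (by norm_num) ?_
      nlinarith [mul_nonneg hκ.le hX0]))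
    htr' hb'
  obtain ⟨l, nD, nL, e, k1', k2, k3, k4, k4z, k5⟩ := key
  exact ⟨l, nD, nL, e, k1', k2, k3, k4, fun r hr z => k4z 2 (Fin.natAdd k0 r)
    (fun x i => V5_zero x r i) (fun z g hg => hr z g hg) z, k5⟩

end Pool.LBL
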