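import Pool.Agent.H36.LBQ.ParQ
import Pool.Agent.H36.LBL.CovP

/-!
# The conserved covector modulo known covectors, general data (K_POT, P5)

`covA`: a body `A (P ω)` which is conserved along the coarse lines and has a small covector (the
output of `pot2`), and which contains, for most tuples of samples of a line, the difference of the
slopes and of a combination of basis functions of the time whose coefficients are functions of the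
reference samples. Then there is a covector with a leading coordinate outside `Fz` which is a
function of the exact point and, modulo the known covectors, of the exact line, and on which the
slopes are combinations of the basis functions with coefficients which are functions of the exact
line.
-/

set_option autoImplicit false

namespace Pool.LBL

open Finset Real Matrix
open Pool.Agent.H49.Ent Pool.Agent.H32.Dense Pool.STK Pool.SLO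
open Pool.BFL (Pb)
open Pool.POT (pw pw_pos pw_add pw_le pw_zero one_le_pw pw_inv ex_pw)

set_option maxHeartbeats 4000000 in
/-- **The conserved covector modulo known covectors, general data.** -/
theorem covA (c k m : ℕ) (n₀ : Fin c) (hn₀ : ∀ i, i ≤ n₀) (p0 x1 ep w0 : ℝ) (hp0 : 0 < p0)
    (hx1 : 0 < x1) (hep : 0 < ep) (hw0 : 0 < w0) :
    ∃ x2 p2 η κ : ℝ, 0 < x2 ∧ 0 < p2 ∧ 0 < η ∧ 0 < κ ∧ η ≤ p0 ∧ κ ≤ x1 / 2 ∧ ∃ X0 : ℕ, ∀ X : ℕ,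
    X0 ≤ X → ∀ {Ω Λ Pt Λ' Ξ : Type} [Fintype Ω] {p : Ω → ℝ}, IsLaw p →
    ∀ (L : Ω → Λ) (P : Ω → Pt) (L' : Ω → Λ') (pt : Ω → Ξ), Det p L' L → Det p pt P →
    ∀ (A : Pt → Matrix (Fin c) (Fin c) ℝ) (M : Ω → Matrix (Fin c) (Fin c) ℝ)
      (ψ : Ω → Fin m → ℝ) (E : Ω → Fin k → Fin c → ℝ) (N : ℕ)
      (V : (Fin N → Ω) → Fin m → Fin k → Fin c → ℝ)
      (Fz : Finset (Fin c)) (fD : Ξ → Fin c → Fin c → ℝ) (fL : Λ' → Fin c → Fin c → ℝ)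
      (φ : Λ' → Fin c → Fin m → Fin k → ℝ) (Ev : Ω → Prop) (B : ℕ), 1 / (B : ℝ) ≤ ep →
    (∀ Q, (A Q).det ≠ 0) → (∀ Q i b, |A Q i b| ≤ 2 ^ (κ * X)) →
    (∀ ω, Uni (M ω)) → (∀ ω i j, |M ω i j| ≤ 2 ^ (κ * X)) →
    (∀ ω i j, |(M ω)⁻¹ i j| ≤ 2 ^ (κ * X)) →
    (∀ ω, 0 < p ω → ∀ u i, |E ω u i| ≤ 2 ^ (κ * X)) →
    (∀ x j u i, |V x j u i| ≤ 2 ^ (κ * X)) → n₀ ∉ Fz →
    Pb p (fun ω => ¬ Ev ω) ≤ η →
    (∀ ξ, ∀ g ∈ Fz, Ld g (fD ξ g) ∧ ∀ i, |fD ξ g i| ≤ 2 ^ (κ * X)) →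
    (∀ ω, 0 < p ω → Ev ω → ∀ g ∈ Fz, ∀ i,
      |(fD (pt ω) g ᵥ* M ω) i - fL (L' ω) g i| ≤ 2 ^ (-((ep + w0) * X))) →
    (∀ ω, 0 < p ω → Ev ω → ∀ g ∈ Fz, ∀ u,
      |∑ i, fL (L' ω) g i * E ω u i - ∑ j, φ (L' ω) g j u * ψ ω j| ≤ 2 ^ (-((ep + w0) * X))) →
    (∀ z, ∀ g ∈ Fz, ∀ j u, |φ z g j u| ≤ 2 ^ (κ * X)) →
    p0 ≤ Pb p (fun ω => ∃ m', Ad (A (P ω)) n₀ ((2 : ℝ) ^ ((X : ℝ) / B))
      (2 ^ (-((x1 - κ) * X))) m') →
    Pb (tup p L 1) (fun w => ¬ ∀ i j,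
      |((A (P (w 0)))⁻¹ * (M (w 0) * (M (w 1))⁻¹ * A (P (w 1)))) i j| ≤ 2 ^ (κ * X)) ≤ η →
    Pb (tup p L N) (fun w => ¬ ∀ u b, |((A (P (w 0)))⁻¹ *ᵥ (M (w 0) *ᵥ
      xq ψ E (V (fun r => w r.succ)) (w 0) u)) b| ≤ 2 ^ (κ * X)) ≤ η →
    ∃ (l : Fin c) (nD : Ξ → Fin c → ℝ) (nL : Λ' → Fin c → ℝ) (e : Λ' → Fin m → Fin k → ℝ),
      l ∉ Fz ∧
      (∀ ξ, Ld l (nD ξ) ∧ (∀ g ∈ Fz, nD ξ g = 0) ∧ ∀ i, |nD ξ i| ≤ 2 ^ ((ep + w0) * X)) ∧
      (∀ z, Ld l (nL z) ∧ ∀ i, |nL z i| ≤ 2 ^ ((ep + w0) * X)) ∧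
      (∀ z j u, |e z j u| ≤ 2 ^ ((ep + w0) * X)) ∧
      (∀ j u, (∀ x i, V x j u i = 0) → (∀ z, ∀ g ∈ Fz, φ z g j u = 0) → ∀ z, e z j u = 0) ∧
      p2 ≤ Pb p (fun ω =>
        (∃ r : Fin c → ℝ, (∀ g, |r g| ≤ 2 ^ ((ep + w0) * X)) ∧
          ∀ i, |(nD (pt ω) ᵥ* M ω) i - nL (L' ω) i + ∑ g ∈ Fz, r g * fL (L' ω) g i| ≤
            2 ^ (-(x2 * X))) ∧
        ∀ u, |∑ i, nL (L' ω) i * E ω u i - ∑ j, e (L' ω) j u * ψ ω j| ≤ 2 ^ (-(x2 * X))) := by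
  have hc : 0 < c := lt_of_le_of_lt (Nat.zero_le _) n₀.2
  have hc1 : (1 : ℝ) ≤ c := by exact_mod_cast hc
  have hc0' : (0 : ℝ) < c := by linarith
  have hD : (1 : ℝ) ≤ 4 ^ c := one_le_pow₀ (by norm_num)
  -- the constants
  obtain ⟨e, he⟩ : ∃ e, e = min x1 w0 / (16 * 4 ^ c) := ⟨_, rfl⟩
  have he0 : 0 < e := by
    rw [he]
    exact div_pos (lt_min hx1 hw0) (by positivity)
  have he' : e * (16 * 4 ^ c) = min x1 w0 := by
    rw [he]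
    field_simp
  have hex : e * (16 * 4 ^ c) ≤ x1 := by rw [he']; exact min_le_left _ _
  have hew : e * (16 * 4 ^ c) ≤ w0 := by rw [he']; exact min_le_right _ _
  obtain ⟨κ', hκ'⟩ : ∃ κ', κ' = e / (2 * (c + 12)) := ⟨_, rfl⟩
  have hκ0 : 0 < κ' := by rw [hκ']; positivity
  have hκe : κ' * (2 * (c + 12)) = e := by
    rw [hκ']
    field_simp
  have hκe' : κ' ≤ e := by nlinarith
  obtain ⟨η, hη⟩ : ∃ η, η = p0 / (8 * c) := ⟨_, rfl⟩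
  have hη0 : 0 < η := by rw [hη]; positivity
  have hη4 : 4 * η = p0 / c / 2 := by
    rw [hη]
    field_simp
    ring
  have hηp : η ≤ p0 := by
    rw [hη]
    exact div_le_self hp0.le (by linarith)
  obtain ⟨X2, h2⟩ := ex_pw (a := κ' / 2) (by linarith) (2 + c)
  refine ⟨e / 2, (p0 / c / 2) ^ 2, η, κ' / 2, by linarith, by positivity, hη0, by linarith, hηp,
    by nlinarith, X2, ?_⟩
  intro X hX Ω Λ Pt Λ' Ξ _ p hp L P L' pt hLL hPP A M ψ E N V Fz fD fL φ Ev B hBe hdet hA hM hG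
    hGi hE hV hnF hEv hf hfL hfE hφ hcv htr hbd
  have h2 := h2 X hX
  have hX0 : (0 : ℝ) ≤ X := Nat.cast_nonneg X
  have hp' := hp.nonneg
  -- the powers
  obtain ⟨T, hT⟩ : ∃ T, T = pw X κ' := ⟨_, rfl⟩
  obtain ⟨U, hU⟩ : ∃ U, U = pw X e := ⟨_, rfl⟩
  have hTh : pw X (κ' / 2) ≤ T := by rw [hT]; exact pw_le (by linarith)
  have hT12 : T ^ (c + 12) = pw X (e / 2) := by
    rw [hT, pw_pow]
    congr 1
    push_cast
    linarith
  have hsz : Szs c T U := by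
    refine ⟨?_, ?_, ?_⟩
    · linarith
    · linarith
    · rw [hT12, pw_add, hU]
      exact pw_le (by linarith)
  have hTc : T ^ c ≤ U := hsz.TNU (by omega)
  have hT1 := hsz.T1
  have hU1 := hsz.U1
  obtain ⟨W, hW⟩ : ∃ W, W = pw X ep * T ^ c := ⟨_, rfl⟩
  have hW1 : 1 ≤ W := by
    rw [hW]
    exact one_le_mul_of_one_le_of_one_le (one_le_pw hep.le) (one_le_pow₀ hT1)
  have hWU : W * U ^ (4 * 4 ^ c) ≤ pw X (ep + w0) := by
    have j1 : U * U ^ (4 * 4 ^ c) ≤ pw X w0 := by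
      rw [← pow_succ', hU, pw_pow]
      refine pw_le ?_
      push_cast
      nlinarith
    calc W * U ^ (4 * 4 ^ c) = pw X ep * (T ^ c * U ^ (4 * 4 ^ c)) := by rw [hW]; ring
      _ ≤ pw X ep * (U * U ^ (4 * 4 ^ c)) := by
          refine mul_le_mul_of_nonneg_left (mul_le_mul_of_nonneg_right hTc (by positivity)) ?_
          exact (pw_pos X ep).le
      _ ≤ pw X ep * pw X w0 := mul_le_mul_of_nonneg_left j1 (pw_pos X ep).le
      _ = pw X (ep + w0) := pw_add X ep w0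
  have hWU0 : 0 < W * U ^ (4 * 4 ^ c) := by positivity
  have hεe : (2 : ℝ) ^ (-((ep + w0) * X)) = (pw X (ep + w0))⁻¹ := by
    rw [pw_inv]
    unfold pw
    congr 1
    ring
  have hε : (2 : ℝ) ^ (-((ep + w0) * X)) ≤ (W * U ^ (4 * 4 ^ c))⁻¹ := by
    rw [hεe]
    exact inv_anti₀ hWU0 hWU
  have hT2 : 2 * pw X (κ' / 2) ≤ T := by
    have j1 : pw X (κ' / 2) * pw X (κ' / 2) = T := by
      rw [pw_add, hT]
      congr 1
      ring
    rw [← j1]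
    exact mul_le_mul_of_nonneg_right (by linarith) (pw_pos X _).le
  have hio1' : 1 ≤ pw X (κ' / 2) := one_le_pw (by linarith)
  have hδ : (2 : ℝ) ^ (-((x1 - κ' / 2) * X)) ≤ (U ^ (2 * 4 ^ c))⁻¹ := by
    have j1 : (2 : ℝ) ^ (-((x1 - κ' / 2) * X)) = pw X (-(x1 - κ' / 2)) := by
      unfold pw
      congr 1
      ring
    rw [j1, hU, pw_pow, pw_inv]
    refine pw_le ?_
    push_cast
    nlinarith
  have hR0 : (2 : ℝ) ^ ((X : ℝ) / B) * T ^ c ≤ W := by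
    rw [hW]
    refine mul_le_mul_of_nonneg_right ?_ (by positivity)
    unfold pw
    refine Real.rpow_le_rpow_of_exponent_le (by norm_num) ?_
    calc (X : ℝ) / B = 1 / (B : ℝ) * X := by ring
      _ ≤ ep * X := mul_le_mul_of_nonneg_right hBe hX0
  have key := cov_szsQ hsz hp L P L' pt hLL hPP A M ψ E N V Fz fD fL φ Ev
    (C := 2 ^ (κ' / 2 * X)) (G := 2 ^ (κ' / 2 * X)) (Gf := 2 ^ (κ' / 2 * X))
    (CE := 2 ^ (κ' / 2 * X)) (CV := 2 ^ (κ' / 2 * X)) (K := 2 ^ (κ' / 2 * X))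
    (Φ := 2 ^ (κ' / 2 * X)) (p0 := p0) (η := η) (ε := 2 ^ (-((ep + w0) * X)))
    (R0 := 2 ^ ((X : ℝ) / B)) (δ0 := 2 ^ (-((x1 - κ' / 2) * X))) (W := W) (n₀ := n₀) hn₀ hW1
    hdet hA hM hG hGi hio1' (by positivity) (by positivity) (by positivity) (by positivity)
    (by positivity) hE hV (by positivity) hp0 hf hfL hfE hφ hEv hnF hcv htr hbd ?_ hTh hTh ?_ hTh
    hTh hTh hTh hε hR0 hδ
  · obtain ⟨l, nD, nL, e', k1, k2, k3, k4, k4z, k5⟩ := key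
    have hWU' : W * U ^ (4 * 4 ^ c) ≤ 2 ^ ((ep + w0) * X) := hWU
    have herr : (T ^ (c + 12))⁻¹ = 2 ^ (-(e / 2 * X)) := by
      rw [hT12, pw_inv]
      unfold pw
      congr 1
      ring
    rw [herr] at k5
    refine ⟨l, nD, nL, e', k1, fun ξ => ⟨(k2 ξ).1, (k2 ξ).2.1, fun i =>
      ((k2 ξ).2.2 i).trans hWU'⟩, fun z => ⟨(k3 z).1, fun i => ((k3 z).2 i).trans hWU'⟩,
      fun z j u => (k4 z j u).trans hWU', k4z, ?_⟩
    have hpp : (p0 / c / 2) ^ 2 = (p0 / c - 4 * η) ^ 2 := by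
      rw [hη4]
      ring
    rw [hpp]
    refine k5.trans (pmono hp' ?_)
    rintro ω - ⟨⟨r, q1, q2⟩, q3⟩
    exact ⟨⟨r, fun g => (q1 g).trans hWU', q2⟩, q3⟩
  · rw [hη4]
    have : 0 < p0 / c := by positivity
    linarith
  · change 1 + pw X (κ' / 2) ≤ T
    linarith

end Pool.LBL
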