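import Pool.Agent.H36.LBQ.BodyQ
import Pool.Agent.H36.LBL.CovX

/-!
# The covector of a body, general data (K_POT)

`cov_twoQ`: as `cov_two`, the body contains the differences of the slopes and of combinations of
basis functions of the time, for most tuples of samples of a line.
-/

set_option autoImplicit false

namespace Pool.LBL

open Finset Real Matrix
open Pool.Agent.H49.Ent Pool.Agent.H32.Dense Pool.STK Pool.SLO
open Pool.BFL (Pb)

variable {c k m : ℕ}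

section two

variable {Ω Λ Pt Λ' Ξ : Type} [Fintype Ω] {p : Ω → ℝ}

/-- The bound of the coefficients. -/
noncomputable def BeQ (c : ℕ) (R S G Gf CV Φ : ℝ) : ℝ :=
  c * (c * ((R + c * (S * Gf)) * G) * CV) + c * (S * Φ)

/-- **The covector**, coarse lines for the body, exact lines for the known covectors. -/
theorem cov_twoQ (hp : IsLaw p) (L : Ω → Λ) (P : Ω → Pt) (L' : Ω → Λ') (pt : Ω → Ξ)
    (hLL : Det p L' L) (hPP : Det p pt P)
    (A : Pt → Matrix (Fin c) (Fin c) ℝ) (M : Ω → Matrix (Fin c) (Fin c) ℝ) (ψ : Ω → Fin m → ℝ)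
    (E : Ω → Fin k → Fin c → ℝ) (N : ℕ) (V : (Fin N → Ω) → Fin m → Fin k → Fin c → ℝ)
    (Fz : Finset (Fin c)) (fD : Ξ → Fin c → Fin c → ℝ)
    (fL : Λ' → Fin c → Fin c → ℝ) (φ : Λ' → Fin c → Fin m → Fin k → ℝ) (Ev : Ω → Prop)
    {R S δ : Fin c → ℝ} {C G Gf CE CV K Φ ρ p0 η ε : ℝ}
    (hdet : ∀ P, (A P).det ≠ 0) (hC : ∀ P i b, |A P i b| ≤ C) (hR : ∀ i, 1 ≤ R i)
    (hS : ∀ i, 0 ≤ S i) (hρ : 0 < ρ) (hM : ∀ ω, Uni (M ω)) (hG : ∀ ω i j, |M ω i j| ≤ G)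
    (hGi : ∀ ω i j, |(M ω)⁻¹ i j| ≤ G) (hG1 : 1 ≤ G) (hGf0 : 0 ≤ Gf) (hε : 0 ≤ ε) (hK : 0 ≤ K)
    (hCE : 0 ≤ CE) (hΦ : 0 ≤ Φ) (hE : ∀ ω, 0 < p ω → ∀ u i, |E ω u i| ≤ CE)
    (hV : ∀ x j u i, |V x j u i| ≤ CV) (hCV : 0 ≤ CV) (hp0 : 0 < p0)
    (hf : ∀ ξ, ∀ g ∈ Fz, Ld g (fD ξ g) ∧ ∀ i, |fD ξ g i| ≤ Gf)
    (hfL : ∀ ω, 0 < p ω → Ev ω → ∀ g ∈ Fz, ∀ i, |(fD (pt ω) g ᵥ* M ω) i - fL (L' ω) g i| ≤ ε)
    (hfE : ∀ ω, 0 < p ω → Ev ω → ∀ g ∈ Fz, ∀ u,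
      |∑ i, fL (L' ω) g i * E ω u i - ∑ j, φ (L' ω) g j u * ψ ω j| ≤ ε)
    (hφ : ∀ z, ∀ g ∈ Fz, ∀ j u, |φ z g j u| ≤ Φ)
    (hEv : Pb p (fun ω => ¬ Ev ω) ≤ η)
    (hcv : p0 ≤ Pb p (fun ω => ∃ l m, AdF (A (P ω)) Fz (fD (pt ω)) l (R l) (S l) (δ l) m))
    (htr : Pb (tup p L 1) (fun w => ¬ ∀ i j,
      |((A (P (w 0)))⁻¹ * (M (w 0) * (M (w 1))⁻¹ * A (P (w 1)))) i j| ≤ K) ≤ η)
    (hbd : Pb (tup p L N) (fun w => ¬ ∀ u b, |((A (P (w 0)))⁻¹ *ᵥ (M (w 0) *ᵥ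
      xq ψ E (V (fun r => w r.succ)) (w 0) u)) b| ≤ K) ≤ η)
    (hη : 4 * η ≤ p0 / c)
    (hpr : ∀ l, ∀ l' < l, (((c * (c * (K * K)) + 1) * δ l +
      c * (c * (S l * (c * (2 * ε * G))) * C)) / ρ +
      ∑ i ∈ univ.filter (fun i => l' < i ∧ i < l), C / R i) * R l' ≤ δ l')
    (hprS : ∀ l, ∀ l' < l,
      (c * (c * (R l * G) * G) * (1 + Gf) ^ c + 2 * S l) / ρ * R l' ≤ S l') :
    ∃ (l : Fin c) (nD : Ξ → Fin c → ℝ) (n : Λ' → Fin c → ℝ) (e : Λ' → Fin m → Fin k → ℝ),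
      l ∉ Fz ∧ (∀ ξ, Ld l (nD ξ) ∧ (∀ g ∈ Fz, nD ξ g = 0) ∧ ∀ i, |nD ξ i| ≤ R l) ∧
      (∀ z, Ld l (n z) ∧ ∀ i, |n z i| ≤ c * (R l * G)) ∧
      (∀ z j u, |e z j u| ≤ BeQ c (R l) (S l) G Gf CV Φ) ∧
      (∀ j u, (∀ x i, V x j u i = 0) → (∀ z, ∀ g ∈ Fz, φ z g j u = 0) → ∀ z, e z j u = 0) ∧
      (p0 / c - 4 * η) ^ 2 ≤ Pb p (fun ω =>
        (∃ r : Fin c → ℝ, (∀ g, |r g| ≤ c * (c * (R l * G) * G) * (1 + Gf) ^ c) ∧
          ∀ i, |(nD (pt ω) ᵥ* M ω) i - n (L' ω) i + ∑ g ∈ Fz, r g * fL (L' ω) g i| ≤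
            c * (ρ * G) + c * (c * (c * (R l * G) * G) * (1 + Gf) ^ c * ε)) ∧
        ∀ u, |∑ i, n (L' ω) i * E ω u i - ∑ j, e (L' ω) j u * ψ ω j| ≤
          c * (δ l * (c * (c * (K * K) * K))) + c * (S l * (c * (ε * CE) + ε))) := by
  classical
  have h0 := hp.nonneg
  obtain ⟨ω₀, hω₀⟩ : ∃ ω, 0 < p ω := by
    by_contra h
    push Not at h
    have h1 := hp.sum_one
    rw [Finset.sum_eq_zero fun ω _ => le_antisymm (h ω) (h0 ω)] at h1
    exact zero_ne_one h1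
  -- the body as a function of the exact point
  obtain ⟨g0, hg0⟩ : ∃ g0 : Ξ → Pt, ∀ ω, 0 < p ω → g0 (pt ω) = P ω := by
    refine ⟨fun ξ => if h : ∃ ω, 0 < p ω ∧ pt ω = ξ then P h.choose else P ω₀, fun ω hω => ?_⟩
    have h : ∃ ω', 0 < p ω' ∧ pt ω' = pt ω := ⟨ω, hω, rfl⟩
    simp only [dif_pos h]
    exact hPP _ _ h.choose_spec.1 hω h.choose_spec.2
  obtain ⟨A', hA'⟩ : ∃ A' : Ξ → Matrix (Fin c) (Fin c) ℝ, A' = fun ξ => A (g0 ξ) := ⟨_, rfl⟩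
  have hA'P : ∀ ω, 0 < p ω → A' (pt ω) = A (P ω) := fun ω hω => by
    rw [hA']
    simp only [hg0 ω hω]
  have hdet' : ∀ ξ, (A' ξ).det ≠ 0 := fun ξ => by
    rw [hA']
    exact hdet _
  have hC' : ∀ ξ i b, |A' ξ i b| ≤ C := fun ξ i b => by
    rw [hA']
    exact hC _ i b
  -- the body of the line
  obtain ⟨rf, fx, -, hG1⟩ := body_lineQ hp L (fun ω => A (P ω)) M ψ E N V htr hbd
  obtain ⟨G1, hG1d⟩ : ∃ G1 : Ω → Prop, G1 = fun ω =>
      (∀ i j, |((A (P (rf (L ω))))⁻¹ * (M (rf (L ω)) * (M ω)⁻¹ * A (P ω))) i j| ≤ K) ∧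
      (∀ i j, |((A (P ω))⁻¹ * (M ω * (M (rf (L ω)))⁻¹ * A (P (rf (L ω))))) i j| ≤ K) ∧
      ∀ u b, |((A (P ω))⁻¹ *ᵥ (M ω *ᵥ xq ψ E (V (fx (L ω))) ω u)) b| ≤ K := ⟨_, rfl⟩
  have hG1' : 1 - 3 * η ≤ Pb p G1 := by
    rw [hG1d]
    exact hG1
  have hG1n : Pb p (fun ω => ¬ G1 ω) ≤ 3 * η := by
    have h1 : Pb p G1 + Pb p (fun ω => ¬ G1 ω) = 1 := by
      rw [← hp.sum_one]
      unfold Pb
      rw [← Finset.sum_add_distrib]
      refine Finset.sum_congr rfl fun ω _ => ?_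
      by_cases h : G1 ω
      · rw [if_pos h, if_neg (not_not.2 h), add_zero]
      · rw [if_neg h, if_pos h, zero_add]
    linarith
  -- the leading coordinate
  obtain ⟨l, hl⟩ := Pb_pigeon h0 (fun l ω => MnF R S δ Fz l (A' (pt ω)) (fD (pt ω)))
    (hcv.trans (pmono h0 fun ω hω h => exists_mnF (by rw [hA'P ω hω]; exact h))) hp0
  have hc1 : (1 : ℝ) ≤ c := by
    have : 0 < c := Fin.pos l
    exact_mod_cast this
  have hpos : 0 < Pb p (fun ω => MnF R S δ Fz l (A' (pt ω)) (fD (pt ω))) :=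
    lt_of_lt_of_le (by positivity) hl
  have hlF : l ∉ Fz := by
    by_contra hlF
    have : Pb p (fun ω => MnF R S δ Fz l (A' (pt ω)) (fD (pt ω))) = 0 := by
      unfold Pb
      refine Finset.sum_eq_zero fun ω _ => if_neg ?_
      rintro ⟨⟨m, hm⟩, -⟩
      exact hm.notin hlF
    rw [this] at hpos
    exact lt_irrefl _ hpos
  obtain ⟨Hv, hHv⟩ : ∃ Hv : Ω → Prop, Hv = fun ω =>
    MnF R S δ Fz l (A' (pt ω)) (fD (pt ω)) ∧ G1 ω ∧ Ev ω := ⟨_, rfl⟩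
  have hHvP : p0 / c - 4 * η ≤ Pb p Hv := by
    obtain ⟨B, hB⟩ : ∃ B : Fin 2 → Ω → Prop, B = ![fun ω => ¬ G1 ω, fun ω => ¬ Ev ω] := ⟨_, rfl⟩
    have b1 := pbad h0 univ (A := fun ω => MnF R S δ Fz l (A' (pt ω)) (fD (pt ω))) (G := Hv) B (by
      intro ω _ hw
      by_cases hh : ∃ i ∈ (univ : Finset (Fin 2)), B i ω
      · exact .inl hh
      · right
        push Not at hh
        have g0 := hh 0 (mem_univ _)
        have g1 := hh 1 (mem_univ _)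
        rw [hB] at g0 g1
        rw [hHv]
        exact ⟨hw, not_not.1 g0, not_not.1 g1⟩)
    rw [Fin.sum_univ_two] at b1
    have b2 : Pb p (B 0) ≤ 3 * η := by rw [hB]; exact hG1n
    have b3 : Pb p (B 1) ≤ η := by rw [hB]; exact hEv
    linarith
  obtain ⟨f, hfz, hfP⟩ := tup_fix hp L' 1 (fun w => Hv (w 0) ∧ Hv (w 1))
  have hPG : (p0 / c - 4 * η) ^ 2 ≤ Pb p (fun ω => Hv ω ∧ Hv (f (L' ω) 0)) := by
    have b1 := pair_sq hp L' Hv
    have b2 : (p0 / c - 4 * η) ^ 2 ≤ Pb p Hv ^ 2 := pow_le_pow_left₀ (by linarith) hHvP 2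
    exact b2.trans (b1.trans hfP)
  -- the functions of the exact line
  obtain ⟨ok, hok⟩ : ∃ ok : Λ' → Prop, ok = fun z => Hv (f z 0) := ⟨_, rfl⟩
  have hsm : ∀ z, ok z → ∃ a : Fin c → ℝ, (∀ g, |a g| ≤ S l) ∧ ∀ b,
      |∑ i, (nOfF R S δ Fz l (A' (pt (f z 0))) (fD (pt (f z 0))) i +
        cmb Fz a (fD (pt (f z 0))) i) * A' (pt (f z 0)) i b| ≤ δ l := by
    intro z hz
    rw [hok, hHv] at hz
    exact (nOfF_ad hz.1.1).sm
  choose! a ha has using hsm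
  obtain ⟨n, hn⟩ : ∃ n : Λ' → Fin c → ℝ, n = fun z => if ok z then
    nOfF R S δ Fz l (A' (pt (f z 0))) (fD (pt (f z 0))) ᵥ* M (f z 0) else Pi.single l 1 := ⟨_, rfl⟩
  obtain ⟨mh, hmh⟩ : ∃ mh : Λ' → Fin c → ℝ, mh = fun z i =>
    nOfF R S δ Fz l (A' (pt (f z 0))) (fD (pt (f z 0))) i +
      cmb Fz (a z) (fD (pt (f z 0))) i := ⟨_, rfl⟩
  obtain ⟨e, he⟩ : ∃ e : Λ' → Fin m → Fin k → ℝ, e = fun z j u => if ok z then
    ∑ i, (mh z ᵥ* M (f z 0)) i * V (fx (L (f z 0))) j u i - ∑ g ∈ Fz, a z g * φ z g j u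
      else 0 := ⟨_, rfl⟩
  have hRl : 0 ≤ R l := zero_le_one.trans (hR l)
  have hG0 : 0 ≤ G := zero_le_one.trans (by assumption)
  have hRG : 0 ≤ R l * G := mul_nonneg hRl hG0
  have hnz : ∀ z, Ld l (n z) ∧ ∀ i, |n z i| ≤ c * (R l * G) := by
    intro z
    rw [hn]
    simp only
    split_ifs with h
    · refine ⟨(hM _).ld nOfF_ld, fun i => ?_⟩
      exact sum_abs_le hRl (fun a => nOfF_le (hR l) a) (fun a => hG _ a i)
    · refine ⟨single_ld l, fun i => single_le l ?_ i⟩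
      have : 1 ≤ R l * G := one_le_mul_of_one_le_of_one_le (hR l) (by assumption)
      nlinarith
  have hmhb : ∀ z, ok z → ∀ i, |(mh z ᵥ* M (f z 0)) i| ≤ c * ((R l + c * (S l * Gf)) * G) := by
    intro z hz i
    refine sum_abs_le (by have := hS l; positivity) (fun j => ?_) (fun j => hG _ j i)
    rw [hmh]
    exact (abs_add_le _ _).trans (add_le_add (nOfF_le (hR l) j)
      (cmb_le (fun g _ => ha z hz g) (fun g hg => (hf _ g hg).2 j) (hS l) hGf0))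
  have hBe : 0 ≤ BeQ c (R l) (S l) G Gf CV Φ := by
    unfold BeQ
    have := hS l
    positivity
  refine ⟨l, fun ξ => nOfF R S δ Fz l (A' ξ) (fD ξ), n, e, hlF,
    fun ξ => ⟨nOfF_ld, nOfF_red hlF, nOfF_le (hR l)⟩, hnz, fun z j u => ?_,
    fun j u hVz hφz z => ?_, ?_⟩
  · rw [he]
    simp only
    split_ifs with h
    · refine (abs_sub _ _).trans (add_le_add ?_ ?_)
      · exact sum_abs_le (by have := hS l; positivity) (hmhb z h) (fun i => hV _ j u i)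
      · exact sum_abs_le' (hS l) hΦ (fun g _ => ha z h g) (fun g hg => hφ z g hg j u)
    · rw [abs_zero]
      exact hBe
  · rw [he]
    simp only
    split_ifs with h
    · rw [Finset.sum_eq_zero fun i _ => by rw [hVz, mul_zero],
        Finset.sum_eq_zero fun g hg => by rw [hφz z g hg, mul_zero], sub_zero]
    · rfl
  · refine hPG.trans (pmono h0 fun ω hω hg => ?_)
    obtain ⟨x0, x1⟩ := hg
    obtain ⟨q1, q2⟩ := hfz ω hω 0
    obtain ⟨ω1, hω1⟩ : ∃ ω1, ω1 = f (L' ω) 0 := ⟨_, rfl⟩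
    rw [← hω1] at x1 q1 q2
    have hokz : ok (L' ω) := by
      rw [hok]
      simp only
      rw [← hω1]
      exact x1
    have hLe : L ω1 = L ω := hLL _ _ q2 hω q1
    rw [hHv] at x0 x1
    obtain ⟨y0, z0, w0⟩ := x0
    obtain ⟨y1, z1, w1⟩ := x1
    rw [hG1d] at z0 z1
    obtain ⟨a1, -, a3⟩ := z0
    obtain ⟨-, b2, -⟩ := z1
    rw [hLe] at b2
    obtain ⟨ωr, hωr⟩ : ∃ ωr, ωr = rf (L ω) := ⟨_, rfl⟩
    rw [← hωr] at a1 b2
    have a3' : ∀ u b, |((A (P ω))⁻¹ *ᵥ (M ω *ᵥ xq ψ E (V (fx (L ω))) ω u)) b| ≤ K := a3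
    rw [← hA'P ω hω] at a1 a3'
    rw [← hA'P ω1 q2] at b2
    have en : n (L' ω) = nOfF R S δ Fz l (A' (pt ω1)) (fD (pt ω1)) ᵥ* M ω1 := by
      rw [hn]
      simp only [if_pos hokz]
      rw [← hω1]
    have f1L : ∀ g ∈ Fz, ∀ i, |(fD (pt ω1) g ᵥ* M ω1) i - fL (L' ω) g i| ≤ ε := by
      intro g hg i
      have := hfL _ q2 w1 g hg i
      rwa [q1] at this
    refine ⟨?_, fun u => ?_⟩
    · rw [en]
      exact two_ptsF (K := c * (K * K)) (hC' _) hR hρ (hdet' _) (hM _) (hM _) (hG _) (hG _)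
        (hGi _) hG0 (fun g hg => (hf _ g hg).1) (fun g hg => (hf _ g hg).2) hGf0 hε
        (hS l) (hfL ω hω w0) f1L (nOfF_ad y0.1) (nOfF_ad y1.1) y0.2 (hpr l) (hprS l)
        (tr_comp hK (hdet _) (hM ωr) b2 a1)
    · have em : mh (L' ω) = fun i => nOfF R S δ Fz l (A' (pt ω1)) (fD (pt ω1)) i +
          cmb Fz (a (L' ω)) (fD (pt ω1)) i := by
        rw [hmh]
        simp only
        rw [← hω1]
      have has' := has (L' ω) hokz
      rw [← hω1] at has'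
      have ha' := ha (L' ω) hokz
      have hδ : 0 ≤ δ l := (abs_nonneg _).trans (has' l)
      have ee : ∀ j, e (L' ω) j u = ∑ i, (mh (L' ω) ᵥ* M ω1) i * V (fx (L ω)) j u i -
          ∑ g ∈ Fz, a (L' ω) g * φ (L' ω) g j u := by
        intro j
        rw [he]
        simp only [if_pos hokz]
        rw [← hω1, hLe]
      have k1 : ∀ b, |((A' (pt ω1))⁻¹ *ᵥ (M ω1 *ᵥ xq ψ E (V (fx (L ω))) ω u)) b| ≤
          c * (c * (K * K) * K) :=
        body_pt (by positivity) (hdet' _) (hM ω) (tr_comp hK (hdet _) (hM ωr) b2 a1) (a3' u)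
      have k2 : |∑ i, (mh (L' ω) ᵥ* M ω1) i * xq ψ E (V (fx (L ω))) ω u i| ≤
          c * (δ l * (c * (c * (K * K) * K))) := by
        refine on_vec (hdet' (pt ω1)) hδ (fun b => ?_) k1
        rw [em]
        exact has' b
      -- the known covectors
      have k3 : |∑ g ∈ Fz, a (L' ω) g * (∑ i, (fD (pt ω1) g ᵥ* M ω1) i * E ω u i -
          ∑ j, φ (L' ω) g j u * ψ ω j)| ≤ c * (S l * (c * (ε * CE) + ε)) := by
        refine sum_abs_le' (hS l) (by positivity) (fun g _ => ha' g) fun g hg => ?_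
        have j1 := hfE ω hω w0 g hg u
        have j2 : |∑ i, ((fD (pt ω1) g ᵥ* M ω1) i - fL (L' ω) g i) * E ω u i| ≤ c * (ε * CE) :=
          sum_abs_le hε (f1L g hg) (fun i => hE ω hω u i)
        have j3 : ∑ i, (fD (pt ω1) g ᵥ* M ω1) i * E ω u i - ∑ j, φ (L' ω) g j u * ψ ω j =
            ∑ i, ((fD (pt ω1) g ᵥ* M ω1) i - fL (L' ω) g i) * E ω u i +
            (∑ i, fL (L' ω) g i * E ω u i - ∑ j, φ (L' ω) g j u * ψ ω j) := by
          have : ∑ i, (fD (pt ω1) g ᵥ* M ω1) i * E ω u i =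
              ∑ i, ((fD (pt ω1) g ᵥ* M ω1) i - fL (L' ω) g i) * E ω u i +
              ∑ i, fL (L' ω) g i * E ω u i := by
            rw [← Finset.sum_add_distrib]
            exact Finset.sum_congr rfl fun i _ => by ring
          rw [this]
          ring
        rw [j3]
        exact (abs_add_le _ _).trans (add_le_add j2 j1)
      have k4 : ∀ i, (mh (L' ω) ᵥ* M ω1) i = n (L' ω) i +
          ∑ g ∈ Fz, a (L' ω) g * (fD (pt ω1) g ᵥ* M ω1) i := by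
        intro i
        have e4 : mh (L' ω) = nOfF R S δ Fz l (A' (pt ω1)) (fD (pt ω1)) +
            fun i => cmb Fz (a (L' ω)) (fD (pt ω1)) i := by
          rw [em]
          rfl
        rw [e4, add_vecMul, Pi.add_apply, vecMul_cmb, ← en]
      have k5 : ∑ i, n (L' ω) i * E ω u i - ∑ j, e (L' ω) j u * ψ ω j =
          ∑ i, (mh (L' ω) ᵥ* M ω1) i * xq ψ E (V (fx (L ω))) ω u i -
          ∑ g ∈ Fz, a (L' ω) g * (∑ i, (fD (pt ω1) g ᵥ* M ω1) i * E ω u i -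
            ∑ j, φ (L' ω) g j u * ψ ω j) := by
        have s1 : ∑ i, (mh (L' ω) ᵥ* M ω1) i * xq ψ E (V (fx (L ω))) ω u i =
            ∑ i, (mh (L' ω) ᵥ* M ω1) i * E ω u i -
              ∑ j, (∑ i, (mh (L' ω) ᵥ* M ω1) i * V (fx (L ω)) j u i) * ψ ω j := by
          have s0 : ∑ j, (∑ i, (mh (L' ω) ᵥ* M ω1) i * V (fx (L ω)) j u i) * ψ ω j =
              ∑ i, (mh (L' ω) ᵥ* M ω1) i * ∑ j, ψ ω j * V (fx (L ω)) j u i := by
            simp only [Finset.mul_sum, Finset.sum_mul]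
            rw [Finset.sum_comm]
            exact Finset.sum_congr rfl fun i _ => Finset.sum_congr rfl fun j _ => by ring
          rw [s0, ← Finset.sum_sub_distrib]
          refine Finset.sum_congr rfl fun i _ => ?_
          unfold xq
          ring
        have s2 : ∑ i, (mh (L' ω) ᵥ* M ω1) i * E ω u i = ∑ i, n (L' ω) i * E ω u i +
            ∑ g ∈ Fz, a (L' ω) g * ∑ i, (fD (pt ω1) g ᵥ* M ω1) i * E ω u i := by
          have s3 : ∑ g ∈ Fz, a (L' ω) g * ∑ i, (fD (pt ω1) g ᵥ* M ω1) i * E ω u i =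
              ∑ i, (∑ g ∈ Fz, a (L' ω) g * (fD (pt ω1) g ᵥ* M ω1) i) * E ω u i := by
            simp only [Finset.mul_sum, Finset.sum_mul]
            rw [Finset.sum_comm]
            exact Finset.sum_congr rfl fun i _ => Finset.sum_congr rfl fun g _ => by ring
          rw [s3, ← Finset.sum_add_distrib]
          refine Finset.sum_congr rfl fun i _ => ?_
          rw [k4 i]
          ring
        have s4 : ∑ g ∈ Fz, a (L' ω) g * (∑ i, (fD (pt ω1) g ᵥ* M ω1) i * E ω u i -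
            ∑ j, φ (L' ω) g j u * ψ ω j) =
            ∑ g ∈ Fz, a (L' ω) g * ∑ i, (fD (pt ω1) g ᵥ* M ω1) i * E ω u i -
            ∑ j, (∑ g ∈ Fz, a (L' ω) g * φ (L' ω) g j u) * ψ ω j := by
          have s0 : ∑ j, (∑ g ∈ Fz, a (L' ω) g * φ (L' ω) g j u) * ψ ω j =
              ∑ g ∈ Fz, a (L' ω) g * ∑ j, φ (L' ω) g j u * ψ ω j := by
            simp only [Finset.mul_sum, Finset.sum_mul]
            rw [Finset.sum_comm]
            exact Finset.sum_congr rfl fun i _ => Finset.sum_congr rfl fun j _ => by ring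
          rw [s0, ← Finset.sum_sub_distrib]
          exact Finset.sum_congr rfl fun g _ => by ring
        have s5 : ∑ j, e (L' ω) j u * ψ ω j =
            ∑ j, (∑ i, (mh (L' ω) ᵥ* M ω1) i * V (fx (L ω)) j u i) * ψ ω j -
            ∑ j, (∑ g ∈ Fz, a (L' ω) g * φ (L' ω) g j u) * ψ ω j := by
          rw [← Finset.sum_sub_distrib]
          refine Finset.sum_congr rfl fun j _ => ?_
          rw [ee j]
          ring
        rw [s4, s1, s2, s5]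
        ring
      rw [k5]
      exact (abs_sub _ _).trans (add_le_add k2 k3)

end two

end Pool.LBL
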