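import Pool.Agent.H36.LBQ.Int5

/-!
# The body contains the differences to the interpolations (P5)

`pt_a`, `pt_c`: at one tuple of samples. `hbd5`: for most tuples of samples of a line.
-/

set_option autoImplicit false

namespace Pool.LBL

open Finset Real Matrix
open Pool.Agent.H49.Ent Pool.Agent.H32.Dense Pool.STK Pool.SLO
open Pool.BFL (Pb)
open Pool.QT64 (d3)

variable {c k0 k1 : ℕ} {Ω Λ Pt : Type}

theorem row_eq (A1 M1 : Matrix (Fin c) (Fin c) ℝ) (b : Fin c) (x : Fin c → ℝ) :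
    (A1⁻¹ *ᵥ (M1 *ᵥ x)) b = ∑ i, (A1⁻¹ * M1) b i * x i := by
  rw [mulVec_mulVec]
  rfl

/-- The static slow coordinates: the reference body. -/
theorem pt_a {A1 M1 : Matrix (Fin c) (Fin c) ℝ} {τ : Ω → ℤ} {tq : Ω → Ω → ℤ}
    {a : Ω → Fin k0 → Fin c → ℝ} {cc : Ω → Fin k1 → Fin c → ℝ} {El : Ω → Fin k1 → Fin k0 → ℝ}
    {Ev : Ω → Fin k0 → Fin c → ℝ} {os oss o2 o3 ω : Ω} {K C s G : ℝ} {X : ℕ}
    (hs : 0 < s) (hs1 : s ≤ 1) (hK : 0 ≤ K) (hG : 0 ≤ G) (hC : 0 ≤ C)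
    (ha : ∀ ω', ω' = o2 ∨ ω' = o3 → ∀ u i, |a ω' u i| ≤ C)
    (hc : ∀ ω', ω' = os ∨ ω' = oss → ∀ r i u, |cc ω' r i * El os r u| ≤ C)
    (hEv : ∀ u i, |Ev os u i| ≤ C)
    (hτ : ∀ ω', ω' = os ∨ ω' = o2 ∨ ω' = o3 → 0 ≤ τ ω' ∧ τ ω' < 2 ^ X)
    (hT : s * 2 ^ X < |((τ oss - τ os : ℤ) : ℝ)|)
    (hT2 : s * 2 ^ X < |((tq os o2 - tq os o3 : ℤ) : ℝ)|)
    (hqr : |(tq os ω : ℝ) - ((τ ω : ℝ) - τ os) ^ 2 / 2 ^ X| ≤ 1)
    (hq0 : |((tq os ω - tq os o3 : ℤ) : ℝ)| ≤ 2 ^ X)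
    (hAi : ∀ i j, |A1⁻¹ i j| ≤ 2 ^ X) (hM : ∀ i j, |M1 i j| ≤ G) {u : Fin k0}
    (h1 : ∀ b, |(A1⁻¹ *ᵥ (M1 *ᵥ d3 (tq os) (aT τ a cc El Ev X os oss) u ω o2 o3)) b| ≤ K)
    (h2 : ∀ b, |(A1⁻¹ *ᵥ (M1 *ᵥ d3 (tq os) (aT τ a cc El Ev X os oss) u o2 ω o3)) b| ≤ K)
    (b : Fin c) :
    |(A1⁻¹ *ᵥ (M1 *ᵥ fun i => a ω u i -
        ∑ j, psi3 τ X ω j * Va τ tq a cc El Ev X os oss o2 o3 j u i)) b| ≤
      K / s + c * (c * G * (2 * CF k1 C s / s)) := by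
  have hX : (0 : ℝ) < 2 ^ X := by positivity
  have hCF : 0 ≤ CF k1 C s := CF_nonneg hs hC
  obtain ⟨n, hn⟩ : ∃ n : Fin c → ℝ, n = fun i => (A1⁻¹ * M1) b i := ⟨_, rfl⟩
  have h1' := h1 b
  have h2' := h2 b
  rw [row_eq] at h1' h2' ⊢
  have e1 : ∀ i, (A1⁻¹ * M1) b i = n i := fun i => by rw [hn]
  simp only [e1] at h1' h2' ⊢
  have key := lin_body (E := aT τ a cc El Ev X os oss) (n := n) hs hs1 hK hq0 hT2 h1' h2'
  have hF : ∀ ω', ω' = o2 ∨ ω' = o3 → ∀ u i, |aT τ a cc El Ev X os oss ω' u i| ≤ CF k1 C s := by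
    intro ω' hω' u i
    refine aT_le hs hs1 (ha ω' hω') (hc os (.inl rfl)) (hc oss (.inr rfl)) hEv ?_ hT u i
    exact abs_dtau (hτ ω' (by rcases hω' with h | h <;> simp [h])) (hτ os (.inl rfl))
  have L1 := fun i => lin1_le (E := aT τ a cc El Ev X os oss) (X := X) hs (hF o2 (.inl rfl))
    (hF o3 (.inr rfl)) hT2 u i
  have hnb : ∀ i, |n i| ≤ c * (2 ^ X * G) := by
    intro i
    rw [hn]
    simp only
    rw [Matrix.mul_apply]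
    exact sum_abs_le hX.le (fun j => hAi b j) (fun j => hM j i)
  have e2 : ∑ i, n i * (a ω u i - ∑ j, psi3 τ X ω j * Va τ tq a cc El Ev X os oss o2 o3 j u i) =
      ∑ i, n i * (aT τ a cc El Ev X os oss ω u i -
        lin0 (tq os) (aT τ a cc El Ev X os oss) o2 o3 u i -
        lin1 (tq os) (aT τ a cc El Ev X os oss) o2 o3 u i * tq os ω) +
      ∑ i, n i * (lin1 (tq os) (aT τ a cc El Ev X os oss) o2 o3 u i *
        ((tq os ω : ℝ) - ((τ ω : ℝ) - τ os) ^ 2 / 2 ^ X)) := by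
    rw [← Finset.sum_add_distrib]
    refine Finset.sum_congr rfl fun i _ => ?_
    rw [Va_eq]
    ring
  rw [e2]
  refine (abs_add_le _ _).trans (add_le_add key ?_)
  have h3 : ∀ i, |lin1 (tq os) (aT τ a cc El Ev X os oss) o2 o3 u i *
        ((tq os ω : ℝ) - ((τ ω : ℝ) - τ os) ^ 2 / 2 ^ X)| ≤ 2 * CF k1 C s / s / 2 ^ X := by
    intro i
    rw [abs_mul, le_div_iff₀ hX]
    have := mul_le_mul_of_nonneg_left hqr (abs_nonneg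
      (lin1 (tq os) (aT τ a cc El Ev X os oss) o2 o3 u i))
    have h4 := L1 i
    nlinarith
  refine (sum_abs_le (by positivity) hnb h3).trans (le_of_eq ?_)
  field_simp

/-- The moving slow coordinates: the reference body. -/
theorem pt_c {A1 M1 : Matrix (Fin c) (Fin c) ℝ} {τ : Ω → ℤ} {cc : Ω → Fin k1 → Fin c → ℝ}
    {o2 o3 ω : Ω} {K s : ℝ} {X : ℕ} (hs : 0 < s) (hs1 : s ≤ 1) (hK : 0 ≤ K)
    (hτ : |((τ ω - τ o3 : ℤ) : ℝ)| ≤ 2 ^ X) (hT : s * 2 ^ X < |((τ o2 - τ o3 : ℤ) : ℝ)|)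
    {u : Fin k1} (h1 : ∀ b, |(A1⁻¹ *ᵥ (M1 *ᵥ d3 τ cc u ω o2 o3)) b| ≤ K)
    (h2 : ∀ b, |(A1⁻¹ *ᵥ (M1 *ᵥ d3 τ cc u o2 ω o3)) b| ≤ K) (b : Fin c) :
    |(A1⁻¹ *ᵥ (M1 *ᵥ fun i => cc ω u i - ∑ j, psi3 τ X ω j * Vc τ cc X o2 o3 j u i)) b| ≤
      K / s := by
  have h1' := h1 b
  have h2' := h2 b
  rw [row_eq] at h1' h2' ⊢
  have key := lin_body (E := cc) (n := fun i => (A1⁻¹ * M1) b i) hs hs1 hK hτ hT h1' h2'
  simp only [Vc_eq]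
  exact key

section

variable [Fintype Ω] {p : Ω → ℝ}

open Classical in
/-- The coefficients of the polynomials of degree two in the time, for all slow coordinates. -/
noncomputable def V5 (p : Ω → ℝ) (τ : Ω → ℤ) (tq : Ω → Ω → ℤ) (a : Ω → Fin k0 → Fin c → ℝ)
    (cc : Ω → Fin k1 → Fin c → ℝ) (El : Ω → Fin k1 → Fin k0 → ℝ) (Ev : Ω → Fin k0 → Fin c → ℝ)
    (X : ℕ) (s : ℝ) (x : Fin 5 → Ω) (j : Fin 3) : Fin (k0 + k1) → Fin c → ℝ :=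
  if (∀ r, 0 < p (x r)) ∧ s * 2 ^ X < |((τ (x 4) - τ (x 3) : ℤ) : ℝ)| ∧
    s * 2 ^ X < |((tq (x 3) (x 1) - tq (x 3) (x 2) : ℤ) : ℝ)| then
    Fin.append (Va τ tq a cc El Ev X (x 3) (x 4) (x 1) (x 2) j) (Vc τ cc X (x 4) (x 3) j)
  else 0

omit [Fintype Ω] in
theorem V5_le {τ : Ω → ℤ} {tq : Ω → Ω → ℤ} {a : Ω → Fin k0 → Fin c → ℝ}
    {cc : Ω → Fin k1 → Fin c → ℝ} {El : Ω → Fin k1 → Fin k0 → ℝ} {Ev : Ω → Fin k0 → Fin c → ℝ}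
    {X : ℕ} {C s : ℝ} (hs : 0 < s) (hs1 : s ≤ 1) (hC : 0 ≤ C)
    (ha : ∀ ω, 0 < p ω → ∀ u i, |a ω u i| ≤ C) (hc : ∀ ω, 0 < p ω → ∀ u i, |cc ω u i| ≤ C)
    (hEl : ∀ ω ω', 0 < p ω → 0 < p ω' → ∀ r i u, |cc ω r i * El ω' r u| ≤ C)
    (hEv : ∀ ω, 0 < p ω → ∀ u i, |Ev ω u i| ≤ C)
    (hτ : ∀ ω, 0 < p ω → 0 ≤ τ ω ∧ τ ω < 2 ^ X)
    (hq : ∀ ω ω', 0 < p ω → 0 < p ω' → 0 ≤ tq ω ω' ∧ tq ω ω' < 2 ^ X)
    (x : Fin 5 → Ω) (j : Fin 3) (u : Fin (k0 + k1)) (i : Fin c) :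
    |V5 p τ tq a cc El Ev X s x j u i| ≤ CV5 k1 C s := by
  have hCF : 0 ≤ CF k1 C s := CF_nonneg hs hC
  unfold V5
  split_ifs with h
  · obtain ⟨h1, h2, h3⟩ := h
    refine Fin.addCases (fun u => ?_) (fun u => ?_) u
    · rw [Fin.append_left]
      refine Va_le hs hs1 hC ?_ ?_ (hEv _ (h1 3)) ?_ (hq _ _ (h1 3) (h1 2)) h2 h3 j u i
      · rintro ω (rfl | rfl)
        · exact ha _ (h1 1)
        · exact ha _ (h1 2)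
      · rintro ω (rfl | rfl)
        · exact hEl _ _ (h1 3) (h1 3)
        · exact hEl _ _ (h1 4) (h1 3)
      · rintro ω (rfl | rfl | rfl | rfl)
        · exact hτ _ (h1 3)
        · exact hτ _ (h1 4)
        · exact hτ _ (h1 1)
        · exact hτ _ (h1 2)
    · rw [Fin.append_right]
      exact Vc_le hs hs1 hC (hc _ (h1 4)) (hc _ (h1 3)) (abs_tau (hτ _ (h1 3))) h2 j u i
  · show |(0 : ℝ)| ≤ _
    rw [abs_zero]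
    unfold CV5
    positivity

omit [Fintype Ω] in
theorem V5_zero {τ : Ω → ℤ} {tq : Ω → Ω → ℤ} {a : Ω → Fin k0 → Fin c → ℝ}
    {cc : Ω → Fin k1 → Fin c → ℝ} {El : Ω → Fin k1 → Fin k0 → ℝ} {Ev : Ω → Fin k0 → Fin c → ℝ}
    {X : ℕ} {s : ℝ} (x : Fin 5 → Ω) (u : Fin k1) (i : Fin c) :
    V5 p τ tq a cc El Ev X s x 2 (Fin.natAdd k0 u) i = 0 := by
  unfold V5
  split_ifs with h
  · rw [Fin.append_right]
    rfl
  · rfl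

/-- **The body contains the differences to the interpolations.** -/
theorem hbd5 (hp : IsLaw p) (L : Ω → Λ) (P : Ω → Pt) (A : Pt → Matrix (Fin c) (Fin c) ℝ)
    (M : Ω → Matrix (Fin c) (Fin c) ℝ) (τ : Ω → ℤ) (tq : Ω → Ω → ℤ)
    (a : Ω → Fin k0 → Fin c → ℝ) (cc : Ω → Fin k1 → Fin c → ℝ)
    (El : Ω → Fin k1 → Fin k0 → ℝ) (Ev : Ω → Fin k0 → Fin c → ℝ) {X : ℕ} {C s G K η : ℝ}
    (hs : 0 < s) (hs1 : s ≤ 1) (hK : 0 ≤ K) (hG0 : 0 ≤ G) (hC : 0 ≤ C)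
    (hdet : ∀ Q, (A Q).det ≠ 0) (hAi : ∀ Q i j, |(A Q)⁻¹ i j| ≤ 2 ^ X) (hM : ∀ ω, Uni (M ω))
    (hG : ∀ ω i j, |M ω i j| ≤ G)
    (ha : ∀ ω, 0 < p ω → ∀ u i, |a ω u i| ≤ C)
    (hEl : ∀ ω ω', 0 < p ω → 0 < p ω' → ∀ r i u, |cc ω r i * El ω' r u| ≤ C)
    (hEv : ∀ ω, 0 < p ω → ∀ u i, |Ev ω u i| ≤ C)
    (hτ : ∀ ω, 0 < p ω → 0 ≤ τ ω ∧ τ ω < 2 ^ X)
    (hq : ∀ ω ω', 0 < p ω → 0 < p ω' → 0 ≤ tq ω ω' ∧ tq ω ω' < 2 ^ X)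
    (hqr : ∀ ω ω', 0 < p ω → 0 < p ω' →
      |(tq ω ω' : ℝ) - ((τ ω' : ℝ) - τ ω) ^ 2 / 2 ^ X| ≤ 1)
    (htr : Pb (tup p L 1) (fun w => ¬ ∀ i j,
      |((A (P (w 0)))⁻¹ * (M (w 0) * (M (w 1))⁻¹ * A (P (w 1)))) i j| ≤ K) ≤ η)
    (hF1 : Pb (tup p L 3) (fun w => ¬ ∀ u b, |((A (P (w 0)))⁻¹ *ᵥ (M (w 0) *ᵥ
      d3 τ cc u (w 1) (w 2) (w 3))) b| ≤ K) ≤ η)
    (hF2 : Pb (tup p L 5) (fun w => ¬ ∀ u b, |((A (P (w 0)))⁻¹ *ᵥ (M (w 0) *ᵥ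
      d3 (tq (w 4)) (aT τ a cc El Ev X (w 4) (w 5)) u (w 1) (w 2) (w 3))) b| ≤ K) ≤ η)
    (htm1 : Pb (tup p L 1) (fun w => |((τ (w 0) - τ (w 1) : ℤ) : ℝ)| ≤ s * 2 ^ X) ≤ η)
    (htm2 : Pb (tup p L 2) (fun w => |((tq (w 0) (w 1) - tq (w 0) (w 2) : ℤ) : ℝ)| ≤
      s * 2 ^ X) ≤ η) :
    Pb (tup p L 5) (fun w => ¬ ∀ u b, |((A (P (w 0)))⁻¹ *ᵥ (M (w 0) *ᵥ
      xq (psi3 τ X) (fun ω => Fin.append (a ω) (cc ω))
        (V5 p τ tq a cc El Ev X s (fun r => w r.succ)) (w 0) u)) b| ≤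
      c * (K * (K / s + c * (c * G * (2 * CF k1 C s / s))))) ≤ 7 * η := by
  classical
  have h0 := hp.nonneg
  have hCF : 0 ≤ CF k1 C s := CF_nonneg hs hC
  obtain ⟨B, hB⟩ : ∃ B : Fin 7 → (Fin 6 → Ω) → Prop, B = ![
    fun w => ¬ ∀ i j, |((A (P (w 0)))⁻¹ * (M (w 0) * (M (w 1))⁻¹ * A (P (w 1)))) i j| ≤ K,
    fun w => ¬ ∀ u b, |((A (P (w 1)))⁻¹ *ᵥ (M (w 1) *ᵥ d3 τ cc u (w 0) (w 5) (w 4))) b| ≤ K,
    fun w => ¬ ∀ u b, |((A (P (w 1)))⁻¹ *ᵥ (M (w 1) *ᵥ d3 τ cc u (w 5) (w 0) (w 4))) b| ≤ K,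
    fun w => ¬ ∀ u b, |((A (P (w 1)))⁻¹ *ᵥ (M (w 1) *ᵥ
      d3 (tq (w 4)) (aT τ a cc El Ev X (w 4) (w 5)) u (w 0) (w 2) (w 3))) b| ≤ K,
    fun w => ¬ ∀ u b, |((A (P (w 1)))⁻¹ *ᵥ (M (w 1) *ᵥ
      d3 (tq (w 4)) (aT τ a cc El Ev X (w 4) (w 5)) u (w 2) (w 0) (w 3))) b| ≤ K,
    fun w => |((τ (w 5) - τ (w 4) : ℤ) : ℝ)| ≤ s * 2 ^ X,
    fun w => |((tq (w 4) (w 2) - tq (w 4) (w 3) : ℤ) : ℝ)| ≤ s * 2 ^ X] := ⟨_, rfl⟩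
  have b0 : Pb (tup p L 5) (B 0) ≤ η := by
    have b3 := pmarg (tup_sub h0 L (M := 1) (N := 5) ![0, 1] (by decide))
      (fun w => ¬ ∀ i j,
        |((A (P (w 0)))⁻¹ * (M (w 0) * (M (w 1))⁻¹ * A (P (w 1)))) i j| ≤ K)
    rw [hB]
    exact (le_of_eq b3).trans htr
  have b1 : Pb (tup p L 5) (B 1) ≤ η := by
    have b3 := pmarg (tup_sub h0 L (M := 3) (N := 5) ![1, 0, 5, 4] (by decide))
      (fun w => ¬ ∀ u b, |((A (P (w 0)))⁻¹ *ᵥ (M (w 0) *ᵥ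
        d3 τ cc u (w 1) (w 2) (w 3))) b| ≤ K)
    rw [hB]
    exact (le_of_eq b3).trans hF1
  have b2 : Pb (tup p L 5) (B 2) ≤ η := by
    have b3 := pmarg (tup_sub h0 L (M := 3) (N := 5) ![1, 5, 0, 4] (by decide))
      (fun w => ¬ ∀ u b, |((A (P (w 0)))⁻¹ *ᵥ (M (w 0) *ᵥ
        d3 τ cc u (w 1) (w 2) (w 3))) b| ≤ K)
    rw [hB]
    exact (le_of_eq b3).trans hF1
  have b3 : Pb (tup p L 5) (B 3) ≤ η := by
    have b3 := pmarg (tup_sub h0 L (M := 5) (N := 5) ![1, 0, 2, 3, 4, 5] (by decide))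
      (fun w => ¬ ∀ u b, |((A (P (w 0)))⁻¹ *ᵥ (M (w 0) *ᵥ
        d3 (tq (w 4)) (aT τ a cc El Ev X (w 4) (w 5)) u (w 1) (w 2) (w 3))) b| ≤ K)
    rw [hB]
    exact (le_of_eq b3).trans hF2
  have b4 : Pb (tup p L 5) (B 4) ≤ η := by
    have b3 := pmarg (tup_sub h0 L (M := 5) (N := 5) ![1, 2, 0, 3, 4, 5] (by decide))
      (fun w => ¬ ∀ u b, |((A (P (w 0)))⁻¹ *ᵥ (M (w 0) *ᵥ
        d3 (tq (w 4)) (aT τ a cc El Ev X (w 4) (w 5)) u (w 1) (w 2) (w 3))) b| ≤ K)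
    rw [hB]
    exact (le_of_eq b3).trans hF2
  have b5 : Pb (tup p L 5) (B 5) ≤ η := by
    have b3 := pmarg (tup_sub h0 L (M := 1) (N := 5) ![5, 4] (by decide))
      (fun w => |((τ (w 0) - τ (w 1) : ℤ) : ℝ)| ≤ s * 2 ^ X)
    rw [hB]
    exact (le_of_eq b3).trans htm1
  have b6 : Pb (tup p L 5) (B 6) ≤ η := by
    have b3 := pmarg (tup_sub h0 L (M := 2) (N := 5) ![4, 2, 3] (by decide))
      (fun w => |((tq (w 0) (w 1) - tq (w 0) (w 2) : ℤ) : ℝ)| ≤ s * 2 ^ X)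
    rw [hB]
    exact (le_of_eq b3).trans htm2
  have b7 := pbad (tup_nonneg h0 L 5) univ
    (A := fun w => ¬ ∀ u b, |((A (P (w 0)))⁻¹ *ᵥ (M (w 0) *ᵥ
      xq (psi3 τ X) (fun ω => Fin.append (a ω) (cc ω))
        (V5 p τ tq a cc El Ev X s (fun r => w r.succ)) (w 0) u)) b| ≤
      c * (K * (K / s + c * (c * G * (2 * CF k1 C s / s))))) (G := fun _ => False) B (by
    intro w hw hbad
    by_contra hh
    push Not at hh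
    obtain ⟨hh, -⟩ := hh
    have g0 := hh 0 (mem_univ _)
    have g1 := hh 1 (mem_univ _)
    have g2 := hh 2 (mem_univ _)
    have g3 := hh 3 (mem_univ _)
    have g4 := hh 4 (mem_univ _)
    have g5 := hh 5 (mem_univ _)
    have g6 := hh 6 (mem_univ _)
    rw [hB] at g0 g1 g2 g3 g4 g5 g6
    replace g0 : ∀ i j, |((A (P (w 0)))⁻¹ * (M (w 0) * (M (w 1))⁻¹ * A (P (w 1)))) i j| ≤ K :=
      not_not.1 g0
    replace g1 : ∀ u b, |((A (P (w 1)))⁻¹ *ᵥ (M (w 1) *ᵥ d3 τ cc u (w 0) (w 5) (w 4))) b| ≤ K :=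
      not_not.1 g1
    replace g2 : ∀ u b, |((A (P (w 1)))⁻¹ *ᵥ (M (w 1) *ᵥ d3 τ cc u (w 5) (w 0) (w 4))) b| ≤ K :=
      not_not.1 g2
    replace g3 : ∀ u b, |((A (P (w 1)))⁻¹ *ᵥ (M (w 1) *ᵥ
      d3 (tq (w 4)) (aT τ a cc El Ev X (w 4) (w 5)) u (w 0) (w 2) (w 3))) b| ≤ K := not_not.1 g3
    replace g4 : ∀ u b, |((A (P (w 1)))⁻¹ *ᵥ (M (w 1) *ᵥ
      d3 (tq (w 4)) (aT τ a cc El Ev X (w 4) (w 5)) u (w 2) (w 0) (w 3))) b| ≤ K := not_not.1 g4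
    replace g5 : s * 2 ^ X < |((τ (w 5) - τ (w 4) : ℤ) : ℝ)| := not_le.1 g5
    replace g6 : s * 2 ^ X < |((tq (w 4) (w 2) - tq (w 4) (w 3) : ℤ) : ℝ)| := not_le.1 g6
    have hpos := ((tup_pos_iff h0 L 5 w).1 hw).1
    apply hbad
    have hV : V5 p τ tq a cc El Ev X s (fun r => w r.succ) = fun j =>
        Fin.append (Va τ tq a cc El Ev X (w 4) (w 5) (w 2) (w 3) j) (Vc τ cc X (w 5) (w 4) j) := by
      funext j
      unfold V5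
      rw [if_pos]
      · rfl
      · exact ⟨fun r => hpos _, g5, g6⟩
    rw [hV]
    have hdt : ∀ ω ω', 0 < p ω → 0 < p ω' → |((τ ω - τ ω' : ℤ) : ℝ)| ≤ 2 ^ X := by
      intro ω ω' k1 k2
      push_cast
      exact abs_dtau (hτ _ k1) (hτ _ k2)
    intro u b
    refine body_pt hK (hdet _) (hM (w 1)) g0 (fun b => ?_) b
    refine Fin.addCases (fun u => ?_) (fun u => ?_) u
    · have e : xq (psi3 τ X) (fun ω => Fin.append (a ω) (cc ω)) (fun j =>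
          Fin.append (Va τ tq a cc El Ev X (w 4) (w 5) (w 2) (w 3) j)
            (Vc τ cc X (w 5) (w 4) j)) (w 0) (Fin.castAdd k1 u) = fun i => a (w 0) u i -
            ∑ j, psi3 τ X (w 0) j * Va τ tq a cc El Ev X (w 4) (w 5) (w 2) (w 3) j u i := by
        funext i
        unfold xq
        simp only [Fin.append_left]
      rw [e]
      refine pt_a hs hs1 hK hG0 hC ?_ ?_ (hEv _ (hpos 4)) ?_ g5 g6
        (hqr _ _ (hpos 4) (hpos 0)) ?_ (hAi _) (hG _) (g3 u) (g4 u) b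
      · rintro ω (rfl | rfl)
        · exact ha _ (hpos 2)
        · exact ha _ (hpos 3)
      · rintro ω (rfl | rfl)
        · exact hEl _ _ (hpos 4) (hpos 4)
        · exact hEl _ _ (hpos 5) (hpos 4)
      · rintro ω (rfl | rfl | rfl)
        · exact hτ _ (hpos 4)
        · exact hτ _ (hpos 2)
        · exact hτ _ (hpos 3)
      · have t0 := abs_tau (hq _ _ (hpos 4) (hpos 0))
        have t3 := abs_tau (hq _ _ (hpos 4) (hpos 3))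
        push_cast
        rw [abs_le]
        constructor <;> linarith [t0.1, t0.2, t3.1, t3.2]
    · have e : xq (psi3 τ X) (fun ω => Fin.append (a ω) (cc ω)) (fun j =>
          Fin.append (Va τ tq a cc El Ev X (w 4) (w 5) (w 2) (w 3) j)
            (Vc τ cc X (w 5) (w 4) j)) (w 0) (Fin.natAdd k0 u) = fun i => cc (w 0) u i -
            ∑ j, psi3 τ X (w 0) j * Vc τ cc X (w 5) (w 4) j u i := by
        funext i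
        unfold xq
        simp only [Fin.append_right]
      rw [e]
      refine (pt_c hs hs1 hK (hdt _ _ (hpos 0) (hpos 4)) g5 (g1 u) (g2 u) b).trans ?_
      have : 0 ≤ c * (c * G * (2 * CF k1 C s / s)) := by positivity
      linarith)
  have e0 : Pb (tup p L 5) (fun _ => False) = 0 := by
    unfold Pb
    exact Finset.sum_eq_zero fun w _ => if_neg (fun h => h)
  rw [Fin.sum_univ_seven, e0] at b7
  linarith

end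

end Pool.LBL
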