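import Pool.Agent.H36.LBQ.CovXQ
import Pool.Agent.H36.LBL.Par

/-!
# The covector of a body, general data, with all the numbers chosen (K_POT)

`cov_szsQ`: as `cov_twoQ`, the sizes are powers of `U`.
-/

set_option autoImplicit false

namespace Pool.LBL

open Finset Real Matrix
open Pool.Agent.H49.Ent Pool.Agent.H32.Dense Pool.STK Pool.SLO
open Pool.BFL (Pb)

variable {c k m : ℕ}

section

variable {T U : ℝ}

theorem Szs.e2Q (h : Szs c T U) {W : ℝ} (hW : 1 ≤ W) {CE K ε : ℝ} (hCE0 : 0 ≤ CE)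
    (hCE : CE ≤ T) (hK0 : 0 ≤ K) (hK : K ≤ T) (hε0 : 0 ≤ ε) (hε : ε ≤ (W * U ^ (4 * 4 ^ c))⁻¹)
    (l : Fin c) :
    c * (dz U l * (c * (c * (K * K) * K))) + c * (Sz U W l * (c * (ε * CE) + ε)) ≤
      (T ^ (c + 12))⁻¹ := by
  have hT2 := h.T2
  have hT1 := h.T1
  have hU1 := h.U1
  have hU0 : 0 < U := by linarith
  have hcT := h.cT
  have hT0 : 0 ≤ T := by linarith
  have hc0 : (0 : ℝ) ≤ c := Nat.cast_nonneg c
  have hb := p4_c l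
  have h4 : 1 ≤ 4 ^ (l : ℕ) := Nat.one_le_pow _ _ (by norm_num)
  have k1 : dz U l ≤ (U ^ 2)⁻¹ := by
    unfold dz
    exact inv_anti₀ (by positivity) (pow_le_pow_right₀ hU1 (by omega))
  have hd0 : 0 ≤ dz U l := by unfold dz; positivity
  have hS0 : 0 ≤ Sz U W l := Sz_nonneg hU1 hW l
  have k2 : Sz U W l * ε ≤ (U ^ 2)⁻¹ := by
    have j1 : Sz U W l * ε ≤ W * U ^ (2 * 4 ^ c - 4 ^ (l : ℕ)) * (W * U ^ (4 * 4 ^ c))⁻¹ := by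
      unfold Sz
      exact mul_le_mul_of_nonneg_left hε (by positivity)
    refine j1.trans ?_
    rw [← div_eq_mul_inv, mul_div_mul_left _ _ (by linarith : W ≠ 0), div_le_iff₀ (by positivity),
      inv_mul_eq_div, le_div_iff₀ (by positivity), ← pow_add]
    exact pow_le_pow_right₀ hU1 (by omega)
  have k3 : c * (dz U l * (c * (c * (K * K) * K))) ≤ T ^ 6 * (U ^ 2)⁻¹ := by
    have j1 : c * (dz U l * (c * (c * (K * K) * K))) = (c * c * c * K * K * K) * dz U l := by ring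
    have j2 : (c : ℝ) * c * c * K * K * K ≤ T * T * T * T * T * T := by gcongr
    rw [j1]
    calc (c : ℝ) * c * c * K * K * K * dz U l ≤ (T * T * T * T * T * T) * (U ^ 2)⁻¹ :=
          mul_le_mul j2 k1 hd0 (by positivity)
      _ = T ^ 6 * (U ^ 2)⁻¹ := by ring
  have k4 : c * (Sz U W l * (c * (ε * CE) + ε)) ≤ T ^ 6 * (U ^ 2)⁻¹ := by
    have j1 : c * (Sz U W l * (c * (ε * CE) + ε)) = (c * (c * CE + 1)) * (Sz U W l * ε) := by ring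
    have j2 : (c : ℝ) * (c * CE + 1) ≤ T ^ 6 := by
      have j3 : (c : ℝ) * (c * CE + 1) ≤ T * (T * T + 1) := by gcongr
      have j4 : T * (T * T + 1) ≤ T * (T * T * T) := by
        have : T * T + 1 ≤ T * T * T := by nlinarith
        exact mul_le_mul_of_nonneg_left this hT0
      have j5 : T * (T * T * T) ≤ T ^ 6 := by
        have : T * (T * T * T) = T ^ 4 := by ring
        rw [this]
        exact pow_le_pow_right₀ hT1 (by norm_num)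
      linarith
    rw [j1]
    exact mul_le_mul j2 k2 (by positivity) (by positivity)
  have k5 : 2 * T ^ 6 ≤ U := h.TNU2 (by omega)
  have k6 : T ^ (c + 12) ≤ U := h.TNU le_rfl
  calc c * (dz U l * (c * (c * (K * K) * K))) + c * (Sz U W l * (c * (ε * CE) + ε)) ≤
        T ^ 6 * (U ^ 2)⁻¹ + T ^ 6 * (U ^ 2)⁻¹ := add_le_add k3 k4
    _ = 2 * T ^ 6 * (U ^ 2)⁻¹ := by ring
    _ ≤ U * (U ^ 2)⁻¹ := mul_le_mul_of_nonneg_right k5 (by positivity)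
    _ = U⁻¹ := by field_simp
    _ ≤ (T ^ (c + 12))⁻¹ := inv_anti₀ (by positivity) k6

theorem Szs.beQ (h : Szs c T U) {n₀ : Fin c} {W : ℝ} (hW : 1 ≤ W) {G Gf CV Φ : ℝ} (hG0 : 0 ≤ G)
    (hG : G ≤ T) (hGf0 : 0 ≤ Gf)
    (hGf : 1 + Gf ≤ T) (hCV0 : 0 ≤ CV) (hCV : CV ≤ T) (hΦ0 : 0 ≤ Φ) (hΦ : Φ ≤ T) (l : Fin c) :
    BeQ c (Rz n₀ U W l) (Sz U W l) G Gf CV Φ ≤ W * U ^ (4 * 4 ^ c) := by
  have hT2 := h.T2
  have hT1 := h.T1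
  have hU1 := h.U1
  have hU0 : 0 < U := by linarith
  have hcT := h.cT
  have hT0 : 0 ≤ T := by linarith
  have hc0 : (0 : ℝ) ≤ c := Nat.cast_nonneg c
  have hb := p4_c l
  have h4 : 1 ≤ 4 ^ (l : ℕ) := Nat.one_le_pow _ _ (by norm_num)
  have hS0 : 0 ≤ Sz U W l := Sz_nonneg hU1 hW l
  have hR0 : 0 ≤ Rz n₀ U W l := by linarith [one_le_Rz (n₀ := n₀) hU1 hW l]
  have hRS : Rz n₀ U W l ≤ Sz U W l := by
    refine (Rz_le hU1 hW l).trans ?_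
    unfold Sz
    exact mul_le_mul_of_nonneg_left (pow_le_pow_right₀ hU1 (by omega)) (by linarith)
  have hGfT : Gf ≤ T := by linarith
  have k1 : Rz n₀ U W l + c * (Sz U W l * Gf) ≤ T ^ 3 * Sz U W l := by
    have j1 : c * (Sz U W l * Gf) ≤ T * (Sz U W l * T) := by gcongr
    have j2 : (1 : ℝ) + T * T ≤ T ^ 3 := by nlinarith
    nlinarith
  have k2 : c * (c * ((Rz n₀ U W l + c * (Sz U W l * Gf)) * G) * CV) ≤ T ^ 10 * Sz U W l := by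
    have j1 : c * (c * ((Rz n₀ U W l + c * (Sz U W l * Gf)) * G) * CV) =
        (c * c * G * CV) * (Rz n₀ U W l + c * (Sz U W l * Gf)) := by ring
    have j2 : (c : ℝ) * c * G * CV ≤ T * T * T * T := by gcongr
    rw [j1]
    calc (c : ℝ) * c * G * CV * (Rz n₀ U W l + c * (Sz U W l * Gf)) ≤
          (T * T * T * T) * (T ^ 3 * Sz U W l) :=
          mul_le_mul j2 k1 (by positivity) (by positivity)
      _ = T ^ 7 * Sz U W l := by ring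
      _ ≤ T ^ 10 * Sz U W l :=
          mul_le_mul_of_nonneg_right (pow_le_pow_right₀ hT1 (by norm_num)) hS0
  have k3 : c * (Sz U W l * Φ) ≤ T ^ 10 * Sz U W l := by
    have j1 : c * (Sz U W l * Φ) ≤ T * (Sz U W l * T) := by gcongr
    have j2 : T ^ 2 ≤ T ^ 10 := pow_le_pow_right₀ hT1 (by norm_num)
    calc c * (Sz U W l * Φ) ≤ T * (Sz U W l * T) := j1
      _ = T ^ 2 * Sz U W l := by ring
      _ ≤ T ^ 10 * Sz U W l := mul_le_mul_of_nonneg_right j2 hS0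
  have k4 : 2 * T ^ 10 ≤ U := h.TNU2 (by omega)
  unfold BeQ
  calc c * (c * ((Rz n₀ U W l + c * (Sz U W l * Gf)) * G) * CV) + c * (Sz U W l * Φ) ≤
        T ^ 10 * Sz U W l + T ^ 10 * Sz U W l := add_le_add k2 k3
    _ = 2 * T ^ 10 * Sz U W l := by ring
    _ ≤ U * Sz U W l := mul_le_mul_of_nonneg_right k4 hS0
    _ = W * U ^ (2 * 4 ^ c - 4 ^ (l : ℕ) + 1) := by
        unfold Sz
        rw [pow_succ]
        ring
    _ ≤ W * U ^ (4 * 4 ^ c) :=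
        mul_le_mul_of_nonneg_left (pow_le_pow_right₀ hU1 (by omega)) (by linarith)

section main

variable {Ω Λ Pt Λ' Ξ : Type} [Fintype Ω] {p : Ω → ℝ}

/-- **The covector**, the sizes are powers of `U`. -/
theorem cov_szsQ (h : Szs c T U) (hp : IsLaw p) (L : Ω → Λ) (P : Ω → Pt) (L' : Ω → Λ')
    (pt : Ω → Ξ) (hLL : Det p L' L) (hPP : Det p pt P)
    (A : Pt → Matrix (Fin c) (Fin c) ℝ) (M : Ω → Matrix (Fin c) (Fin c) ℝ) (ψ : Ω → Fin m → ℝ)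
    (E : Ω → Fin k → Fin c → ℝ) (N : ℕ) (V : (Fin N → Ω) → Fin m → Fin k → Fin c → ℝ)
    (Fz : Finset (Fin c)) (fD : Ξ → Fin c → Fin c → ℝ)
    (fL : Λ' → Fin c → Fin c → ℝ) (φ : Λ' → Fin c → Fin m → Fin k → ℝ) (Ev : Ω → Prop)
    {C G Gf CE CV K Φ p0 η ε R0 δ0 W : ℝ} {n₀ : Fin c} (hn₀ : ∀ i, i ≤ n₀) (hW : 1 ≤ W)
    (hdet : ∀ P, (A P).det ≠ 0) (hC : ∀ P i b, |A P i b| ≤ C) (hM : ∀ ω, Uni (M ω))
    (hG : ∀ ω i j, |M ω i j| ≤ G)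
    (hGi : ∀ ω i j, |(M ω)⁻¹ i j| ≤ G) (hG1 : 1 ≤ G) (hGf0 : 0 ≤ Gf) (hε : 0 ≤ ε) (hK : 0 ≤ K)
    (hCE : 0 ≤ CE) (hΦ : 0 ≤ Φ) (hE : ∀ ω, 0 < p ω → ∀ u i, |E ω u i| ≤ CE)
    (hV : ∀ x j u i, |V x j u i| ≤ CV) (hCV : 0 ≤ CV) (hp0 : 0 < p0)
    (hf : ∀ ξ, ∀ g ∈ Fz, Ld g (fD ξ g) ∧ ∀ i, |fD ξ g i| ≤ Gf)
    (hfL : ∀ ω, 0 < p ω → Ev ω → ∀ g ∈ Fz, ∀ i, |(fD (pt ω) g ᵥ* M ω) i - fL (L' ω) g i| ≤ ε)
    (hfE : ∀ ω, 0 < p ω → Ev ω → ∀ g ∈ Fz, ∀ u,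
      |∑ i, fL (L' ω) g i * E ω u i - ∑ j, φ (L' ω) g j u * ψ ω j| ≤ ε)
    (hφ : ∀ z, ∀ g ∈ Fz, ∀ j u, |φ z g j u| ≤ Φ)
    (hEv : Pb p (fun ω => ¬ Ev ω) ≤ η) (hn0 : n₀ ∉ Fz)
    (hcv : p0 ≤ Pb p (fun ω => ∃ m, Ad (A (P ω)) n₀ R0 δ0 m))
    (htr : Pb (tup p L 1) (fun w => ¬ ∀ i j,
      |((A (P (w 0)))⁻¹ * (M (w 0) * (M (w 1))⁻¹ * A (P (w 1)))) i j| ≤ K) ≤ η)
    (hbd : Pb (tup p L N) (fun w => ¬ ∀ u b, |((A (P (w 0)))⁻¹ *ᵥ (M (w 0) *ᵥ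
      xq ψ E (V (fun r => w r.succ)) (w 0) u)) b| ≤ K) ≤ η)
    (hη : 4 * η ≤ p0 / c)
    (hCT : C ≤ T) (hGT : G ≤ T) (hGfT : 1 + Gf ≤ T) (hCET : CE ≤ T) (hCVT : CV ≤ T) (hKT : K ≤ T)
    (hΦT : Φ ≤ T) (hεU : ε ≤ (W * U ^ (4 * 4 ^ c))⁻¹) (hR0 : R0 * T ^ c ≤ W)
    (hδ0 : δ0 ≤ (U ^ (2 * 4 ^ c))⁻¹) :
    ∃ (l : Fin c) (nD : Ξ → Fin c → ℝ) (n : Λ' → Fin c → ℝ) (e : Λ' → Fin m → Fin k → ℝ),
      l ∉ Fz ∧ (∀ ξ, Ld l (nD ξ) ∧ (∀ g ∈ Fz, nD ξ g = 0) ∧ ∀ i, |nD ξ i| ≤ W * U ^ (4 * 4 ^ c)) ∧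
      (∀ z, Ld l (n z) ∧ ∀ i, |n z i| ≤ W * U ^ (4 * 4 ^ c)) ∧
      (∀ z j u, |e z j u| ≤ W * U ^ (4 * 4 ^ c)) ∧
      (∀ j u, (∀ x i, V x j u i = 0) → (∀ z, ∀ g ∈ Fz, φ z g j u = 0) → ∀ z, e z j u = 0) ∧
      (p0 / c - 4 * η) ^ 2 ≤ Pb p (fun ω =>
        (∃ r : Fin c → ℝ, (∀ g, |r g| ≤ W * U ^ (4 * 4 ^ c)) ∧
          ∀ i, |(nD (pt ω) ᵥ* M ω) i - n (L' ω) i + ∑ g ∈ Fz, r g * fL (L' ω) g i| ≤
            (T ^ (c + 12))⁻¹) ∧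
        ∀ u, |∑ i, n (L' ω) i * E ω u i - ∑ j, e (L' ω) j u * ψ ω j| ≤
          (T ^ (c + 12))⁻¹) := by
  classical
  have hT2 := h.T2
  have hT1 := h.T1
  have hU1 := h.U1
  have hU0 : 0 < U := by linarith
  have hT0 : 0 ≤ T := by linarith
  have hG0 : 0 ≤ G := by linarith
  have hC0 : 0 ≤ C := by
    obtain ⟨ω⟩ : Nonempty Ω := by
      by_contra hne
      rw [not_nonempty_iff] at hne
      have := hp.sum_one
      simp at this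
    exact (abs_nonneg _).trans (hC (P ω) n₀ n₀)
  have hp0' := hp.nonneg
  have hcv' : p0 ≤ Pb p (fun ω => ∃ l m,
      AdF (A (P ω)) Fz (fD (pt ω)) l (Rz n₀ U W l) (Sz U W l) (dz U l) m) := by
    refine hcv.trans (pmono hp0' fun ω _ hm => ?_)
    obtain ⟨m, hm⟩ := hm
    obtain ⟨m', hm'⟩ := adF_of (fun g hg => (hf (pt ω) g hg).1)
      (fun g hg => (hf (pt ω) g hg).2) hGf0 hn0 hm
    have hR00 : 0 ≤ R0 := (abs_nonneg _).trans (hm.le n₀)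
    have hcard : Fz.card ≤ c := by
      have := Finset.card_le_univ Fz
      rwa [Fintype.card_fin] at this
    have j1 : R0 * (1 + Gf) ^ Fz.card ≤ W := by
      have j2 : (1 + Gf) ^ Fz.card ≤ T ^ c :=
        (pow_le_pow_left₀ (by linarith) hGfT _).trans (pow_le_pow_right₀ hT1 hcard)
      exact (mul_le_mul_of_nonneg_left j2 hR00).trans hR0
    have h4 : 1 ≤ 4 ^ (n₀ : ℕ) := Nat.one_le_pow _ _ (by norm_num)
    have hb := p4_c n₀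
    refine ⟨n₀, m', hm'.mono (j1.trans (le_of_eq ?_)) (j1.trans ?_) (hδ0.trans ?_)⟩
    · unfold Rz
      rw [if_pos rfl]
    · unfold Sz
      have : (1 : ℝ) ≤ U ^ (2 * 4 ^ c - 4 ^ (n₀ : ℕ)) := one_le_pow₀ hU1
      nlinarith
    · unfold dz
      exact inv_anti₀ (by positivity) (pow_le_pow_right₀ hU1 (by omega))
  obtain ⟨l, nD, n, e, r1, r2, r3, r4, r4z, r5⟩ := cov_twoQ hp L P L' pt hLL hPP A M ψ E N V Fz fD fL
    φ Ev (R := Rz n₀ U W) (S := Sz U W) (δ := dz U) (C := C) (G := G) (Gf := Gf) (CE := CE)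
    (CV := CV) (K := K)
    (Φ := Φ) (ρ := U⁻¹) (p0 := p0) (η := η) (ε := ε) hdet hC
    (fun i => one_le_Rz hU1 hW i) (fun i => Sz_nonneg hU1 hW i)
    (by positivity) hM hG hGi hG1 hGf0 hε hK hCE hΦ hE hV hCV hp0 hf hfL hfE hφ hEv hcv' htr
    hbd hη (fun l l' hl => h.pr hn₀ hW hC0 hG0 hK hε hCT hGT hKT hεU l l' hl)
    (fun l l' hl => h.prS hn₀ hW hG0 hGT hGf0 hGfT l l' hl)
  have hb := p4_c l
  have h4 : 1 ≤ 4 ^ (l : ℕ) := Nat.one_le_pow _ _ (by norm_num)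
  have hRl : 0 ≤ Rz n₀ U W l := by linarith [one_le_Rz (n₀ := n₀) hU1 hW l]
  have hRU : U * Rz n₀ U W l ≤ W * U ^ (4 * 4 ^ c) := by
    calc U * Rz n₀ U W l ≤ U * (W * U ^ 4 ^ (l : ℕ)) :=
          mul_le_mul_of_nonneg_left (Rz_le hU1 hW l) hU0.le
      _ = W * U ^ (4 ^ (l : ℕ) + 1) := by
          rw [pow_succ]
          ring
      _ ≤ _ := mul_le_mul_of_nonneg_left (pow_le_pow_right₀ hU1 (by omega)) (by linarith)
  have m1 : Rz n₀ U W l ≤ W * U ^ (4 * 4 ^ c) := by nlinarith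
  have m2 : c * (Rz n₀ U W l * G) ≤ W * U ^ (4 * 4 ^ c) := by
    have hcT := h.cT
    calc c * (Rz n₀ U W l * G) ≤ T * (Rz n₀ U W l * T) := by gcongr
      _ = T ^ 2 * Rz n₀ U W l := by ring
      _ ≤ U * Rz n₀ U W l := mul_le_mul_of_nonneg_right (h.TNU (by omega)) hRl
      _ ≤ _ := hRU
  have m3 : c * (c * (Rz n₀ U W l * G) * G) * (1 + Gf) ^ c ≤ W * U ^ (4 * 4 ^ c) := by
    calc c * (c * (Rz n₀ U W l * G) * G) * (1 + Gf) ^ c ≤ T ^ (c + 4) * Rz n₀ U W l :=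
          h.cG hG0 hGT hGf0 hGfT hRl
      _ ≤ U * Rz n₀ U W l := mul_le_mul_of_nonneg_right (h.TNU (by omega)) hRl
      _ ≤ _ := hRU
  have m4 := h.beQ (n₀ := n₀) hW hG0 hGT hGf0 hGfT hCV hCVT hΦ hΦT l
  have m5 := h.e1 (n₀ := n₀) hW hG0 hGT hGf0 hGfT hε hεU l
  have m6 := h.e2Q hW hCE hCET hK hKT hε hεU l
  refine ⟨l, nD, n, e, r1, fun ξ => ⟨(r2 ξ).1, (r2 ξ).2.1, fun i => ((r2 ξ).2.2 i).trans m1⟩,
    fun z => ⟨(r3 z).1, fun i => ((r3 z).2 i).trans m2⟩,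
    fun z j u => (r4 z j u).trans m4, r4z, r5.trans (pmono hp0' ?_)⟩
  rintro ω - ⟨⟨r, q1, q2⟩, q3⟩
  exact ⟨⟨r, fun g => (q1 g).trans m3, fun i => (q2 i).trans m5⟩, fun u => (q3 u).trans m6⟩

end main

end

end Pool.LBL
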